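import Pool.Agent.H86.Mct.Mod

/-!
# The lower bounds for a fixed good system of scopes
-/

namespace Pool.Agent.H86.Mct

open scoped NNReal

/-- The bound for De Morgan circuits. -/
theorem demorgan_bound {n m k s : ℕ} (C : Circuit (Lit m k) Bool s)
    (t : Fin m → Fin k → Fin n) {τ : ℕ} (hτ : 2 ≤ τ) (B d q V Q : ℕ) (r : ℝ)
    (hV : ∀ a : Fin n → Bool, (Finset.univ.filter (fun c => hammingDist a c ≤ 2 * d)).card ≤ V)
    (ht : GoodScopes d q t) (hnum : q * (3 * τ) + (2 * B + 1) * m < q * m)
    (hr : r * m < τ * (B + 1))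
    (hsound : ∀ y, accepts C y = true → Satisfiable t y)
    (A : Finset (Fin n → Bool)) (hA : ∀ a ∈ A, HasTree C (planted t a) (r * m) Q) :
    A.card ≤ (∑ i ∈ Finset.range (Q + 1), (2 ^ k * m).choose i) *
      (s * (B + 1) * ((2 * B + 1) * V)) := by
  classical
  have hch : ∀ a : Fin n → Bool, ∃ b : Multiset (Lit m k), a ∈ A →
      (ProofTree C (fun c => c = true) C.out b ∧ (∀ l ∈ b, litVal (planted t a) l = true) ∧
        (b.countP (fun l => l.2 = true) : ℝ) ≤ r * m ∧
        (b.toFinset.filter (fun l => l.2 = false)).card ≤ Q) := by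
    intro a
    by_cases ha : a ∈ A
    · obtain ⟨b, hb⟩ := hA a ha
      exact ⟨b, fun _ => hb⟩
    · exact ⟨0, fun h => absurd h ha⟩
  choose b hb using hch
  -- the set of negated inputs of the chosen proof tree
  let N : (Fin n → Bool) → Finset (Inp m k) := fun a =>
    ((b a).toFinset.filter (fun l => l.2 = false)).image Prod.fst
  have hQmem : ∀ a, ∀ i, (i, false) ∈ b a ↔ i ∈ N a := by
    intro a i
    simp only [N, Finset.mem_image, Finset.mem_filter, Multiset.mem_toFinset]
    constructor
    · intro h
      exact ⟨(i, false), ⟨h, rfl⟩, rfl⟩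
    · rintro ⟨⟨i', c⟩, ⟨h1, h2⟩, h3⟩
      simp only at h2 h3
      subst h2 h3
      exact h1
  have hQcard : ∀ a ∈ A, (N a).card ≤ Q := fun a ha =>
    Finset.card_image_le.trans (hb a ha).2.2.2
  have hone : ∀ P : Finset (Inp m k), (A.filter (fun a => N a = P)).card ≤
      s * (B + 1) * ((2 * B + 1) * V) := by
    intro P
    refine comb_bound C (fun c => c = true) t
      (fun l : Lit m k => if l.2 = true then some l.1 else none) hτ B d q V hV ht hnum
      (A.filter (fun a => N a = P)) b ?_ ?_ ?_ ?_
    · intro a ha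
      exact (hb a (Finset.mem_filter.1 ha).1).1
    · intro a ha e he i hi
      obtain ⟨j, c⟩ := e
      cases c with
      | false => simp at hi
      | true =>
        simp only [if_true, Option.some.injEq] at hi
        subst hi
        have := (hb a (Finset.mem_filter.1 ha).1).2.1 _ he
        simpa [litVal, planted] using this
    · intro a ha
      have h1 := (hb a (Finset.mem_filter.1 ha).1).2.2.1
      have h2 : (b a).countP (fun e : Lit m k =>
          ((fun l : Lit m k => if l.2 = true then some l.1 else none) e).isSome = true) =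
          (b a).countP (fun l => l.2 = true) := by
        apply Multiset.countP_congr rfl
        rintro ⟨j, c⟩ _
        cases c <;> simp
      rw [h2]
      have h3 : ((b a).countP (fun l => l.2 = true) : ℝ) < τ * (B + 1) := by linarith
      have h4 : (b a).countP (fun l => l.2 = true) < τ * (B + 1) := by exact_mod_cast h3
      have h5 := Nat.div_lt_of_lt_mul h4
      omega
    · intro b' hb' hfrom
      -- the instance of the positive leaves
      let y : Inp m k → Bool := fun i => decide ((i, true) ∈ b')
      have hy : ∀ l ∈ b', litVal y l = true := by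
        rintro ⟨i, c⟩ hl
        cases c with
        | true => simpa [litVal, y] using hl
        | false =>
          have hni : (i, true) ∉ b' := by
            intro hpos
            obtain ⟨a, ha, hea⟩ := hfrom _ hl
            obtain ⟨a', ha', hea'⟩ := hfrom _ hpos
            obtain ⟨haA, haP⟩ := Finset.mem_filter.1 ha
            obtain ⟨haA', haP'⟩ := Finset.mem_filter.1 ha'
            have h1 : i ∈ N a := (hQmem a i).1 hea
            rw [haP, ← haP'] at h1
            have h2 := (hb a' haA').2.1 _ ((hQmem a' i).2 h1)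
            have h3 := (hb a' haA').2.1 _ hea'
            unfold litVal at h2 h3
            revert h2 h3
            cases planted t a' i <;> simp
          simpa [litVal, y] using hni
      obtain ⟨c, hc⟩ := hsound y (hb'.eval_true hy)
      refine ⟨c, fun j => ⟨((j, c ∘ t j), true), ?_, by simp⟩⟩
      have := hc j
      simpa [y] using this
  calc A.card = ∑ P ∈ (Finset.univ : Finset (Finset (Inp m k))).filter
          (fun P => P.card ≤ Q), (A.filter (fun a => N a = P)).card :=
        Finset.card_eq_sum_card_fiberwise (fun a ha => by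
          exact Finset.mem_coe.2 (Finset.mem_filter.2 ⟨Finset.mem_univ _, hQcard a ha⟩))
    _ ≤ ∑ _P ∈ (Finset.univ : Finset (Finset (Inp m k))).filter
          (fun P => P.card ≤ Q), s * (B + 1) * ((2 * B + 1) * V) :=
        Finset.sum_le_sum (fun P _ => hone P)
    _ = (∑ i ∈ Finset.range (Q + 1), (2 ^ k * m).choose i) *
          (s * (B + 1) * ((2 * B + 1) * V)) := by
        rw [Finset.sum_const, smul_eq_mul, card_small_subsets]
        congr 2
        funext i
        congr 1
        simp [Inp, Fintype.card_prod, mul_comm]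

/-- The bound for (min,+) circuits. -/
theorem minPlus_bound {n m k s : ℕ} (C : Circuit (Inp m k) ℝ≥0 s)
    (t : Fin m → Fin k → Fin n) {τ : ℕ} (hτ : 2 ≤ τ) (B d q V : ℕ) (r : ℝ)
    (hV : ∀ a : Fin n → Bool, (Finset.univ.filter (fun c => hammingDist a c ≤ 2 * d)).card ≤ V)
    (ht : GoodScopes d q t) (hnum : q * (3 * τ) + (2 * B + 1) * m < q * m)
    (hr : r * m < τ * (B + 1))
    (hC : ∀ w, (∃ a, cost t w a ≤ minPlus C w) ∧ ∀ a, (minPlus C w : ℝ) ≤ r * cost t w a) :
    2 ^ n ≤ s * (B + 1) * ((2 * B + 1) * V) := by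
  classical
  have hch : ∀ a : Fin n → Bool, ∃ b : Multiset (Inp m k), ProofTree C (fun _ => True) C.out b ∧
      (∀ i ∈ b, i.2 = a ∘ t i.1) ∧ (b.card : ℝ) ≤ r * m := by
    intro a
    set Λ : ℝ≥0 := Real.toNNReal (r * m) + 1 with hΛ
    set w : Inp m k → ℝ≥0 := fun i => if i.2 = a ∘ t i.1 then 1 else Λ with hw
    obtain ⟨b, hb, hbw⟩ := exists_tree_le C w C.out
    have hcost : cost t w a = m := by simp [cost, hw]
    have h1 : (minPlus C w : ℝ) ≤ r * m := by
      have := (hC w).2 a
      rw [hcost] at this
      simpa using this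
    have h2 : ((b.map w).sum : ℝ) ≤ r * m := by
      have : ((b.map w).sum : ℝ) ≤ (minPlus C w : ℝ) := by exact_mod_cast hbw
      exact this.trans h1
    have h3 : (b.map w).sum < Λ := by
      rw [← NNReal.coe_lt_coe]
      have : r * m ≤ (Real.toNNReal (r * m) : ℝ) := Real.le_coe_toNNReal _
      rw [hΛ, NNReal.coe_add, NNReal.coe_one]
      linarith
    have h4 : ∀ i ∈ b, i.2 = a ∘ t i.1 := by
      intro i hi
      by_contra hne
      have h5 : w i ≤ (b.map w).sum :=
        Multiset.single_le_sum (fun x _ => zero_le) _ (Multiset.mem_map_of_mem w hi)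
      have h6 : w i = Λ := by simp [hw, hne]
      rw [h6] at h5
      exact absurd h3 (not_lt.2 h5)
    refine ⟨b, hb, h4, ?_⟩
    have h7 : b.map w = b.map (fun _ => (1 : ℝ≥0)) := by
      apply Multiset.map_congr rfl
      intro i hi
      simp [hw, h4 i hi]
    rw [h7] at h2
    simpa using h2
  choose b hb using hch
  have key := comb_bound C (fun _ => True) t (fun i => some i) hτ B d q V hV ht hnum
    Finset.univ b (fun a _ => (hb a).1)
    (fun a _ e he i hi => by
      have : e = i := by simpa using hi
      subst this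
      exact (hb a).2.1 e he)
    (fun a _ => by
      have h1 : (b a).countP (fun e => (some e : Option (Inp m k)).isSome = true) =
          (b a).card := by
        rw [Multiset.countP_eq_card]
        intro e _
        rfl
      rw [h1]
      have h2 := (hb a).2.2
      have h3 : ((b a).card : ℝ) < τ * (B + 1) := by linarith
      have h4 : (b a).card < τ * (B + 1) := by exact_mod_cast h3
      have h5 := Nat.div_lt_of_lt_mul h4
      omega)
    (fun b' hb' _ => by
      obtain ⟨B, hB⟩ := hb'.min_le
      set w : Inp m k → ℝ≥0 := fun i => if i ∈ b' then 0 else B + 1 with hw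
      have h1 : (b'.map w).sum = 0 := by
        apply Multiset.sum_eq_zero
        intro x hx
        obtain ⟨i, hi, rfl⟩ := Multiset.mem_map.1 hx
        simp [hw, hi]
      have h2 : minPlus C w ≤ B := by
        have := hB w
        rw [h1, add_zero] at this
        exact this
      obtain ⟨c, hc⟩ := (hC w).1
      refine ⟨c, fun j => ⟨(j, c ∘ t j), ?_, rfl⟩⟩
      by_contra hne
      have h3 : w (j, c ∘ t j) ≤ cost t w c :=
        Finset.single_le_sum (f := fun j => w (j, c ∘ t j)) (fun _ _ => zero_le)
          (Finset.mem_univ j)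
      have h4 : w (j, c ∘ t j) = B + 1 := by simp [hw, hne]
      rw [h4] at h3
      have h5 : B + 1 ≤ B := h3.trans (hc.trans h2)
      exact absurd h5 (not_le.2 (lt_add_one B)))
  simpa using key

/-- The proof trees of a (max,+) circuit which stays below the maximal weight are sets of
patterns of one assignment. -/
theorem max_sound {n m k s : ℕ} (C : Circuit (Inp m k) ℝ≥0 s) (t : Fin m → Fin k → Fin n)
    (hC : ∀ w, ∃ a, maxPlus C w ≤ cost t w a) {b : Multiset (Inp m k)}
    (hb : ProofTree C (fun _ => True) C.out b) :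
    b.Nodup ∧ ∃ c : Fin n → Bool, ∀ i ∈ b, i.2 = c ∘ t i.1 := by
  classical
  obtain ⟨c, hc⟩ := hC (fun i => (b.count i : ℝ≥0))
  have h1 := (hb.le_max (fun i => (b.count i : ℝ≥0))).trans hc
  have h2 : (b.map (fun i => (b.count i : ℝ≥0))).sum =
      ((∑ i : Inp m k, b.count i * b.count i : ℕ) : ℝ≥0) := by
    rw [Finset.sum_multiset_map_count]
    rw [Finset.sum_subset (Finset.subset_univ b.toFinset)]
    · push_cast
      exact Finset.sum_congr rfl (fun i _ => by rw [nsmul_eq_mul])
    · intro i _ hi
      rw [Multiset.mem_toFinset] at hi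
      simp [Multiset.count_eq_zero_of_notMem hi]
  have h3 : cost t (fun i => (b.count i : ℝ≥0)) c =
      ((∑ i : Inp m k, (if i.2 = c ∘ t i.1 then b.count i else 0) : ℕ) : ℝ≥0) := by
    rw [Fintype.sum_prod_type]
    simp only [Finset.sum_ite_eq', Finset.mem_univ, if_true]
    unfold cost
    push_cast
    rfl
  rw [h2, h3] at h1
  have h4 : ∑ i : Inp m k, b.count i * b.count i ≤
      ∑ i : Inp m k, (if i.2 = c ∘ t i.1 then b.count i else 0) := by exact_mod_cast h1
  have h5 : ∀ i : Inp m k, (if i.2 = c ∘ t i.1 then b.count i else 0) ≤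
      b.count i * b.count i := by
    intro i
    split
    · exact Nat.le_mul_self _
    · exact Nat.zero_le _
  have h6 : ∀ i : Inp m k, b.count i * b.count i =
      (if i.2 = c ∘ t i.1 then b.count i else 0) := by
    intro i
    by_contra hne
    have h7 : ∑ i : Inp m k, (if i.2 = c ∘ t i.1 then b.count i else 0) <
        ∑ i : Inp m k, b.count i * b.count i :=
      Finset.sum_lt_sum (fun i _ => h5 i)
        ⟨i, Finset.mem_univ i, lt_of_le_of_ne (h5 i) (Ne.symm hne)⟩
    omega
  refine ⟨?_, c, ?_⟩
  · rw [Multiset.nodup_iff_count_le_one]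
    intro i
    have h7 := h6 i
    by_cases hi : i.2 = c ∘ t i.1
    · rw [if_pos hi] at h7
      by_contra hcon
      have h8 : 2 ≤ b.count i := by omega
      nlinarith
    · rw [if_neg hi] at h7
      have := mul_self_eq_zero.1 h7
      omega
  · intro i hi
    by_contra hne
    have h7 := h6 i
    rw [if_neg hne] at h7
    have h8 : 0 < b.count i := Multiset.count_pos.2 hi
    have := mul_self_eq_zero.1 h7
    omega

/-- A set of patterns shared by two assignments. -/
theorem agree_of_piece {n m k d q : ℕ} (t : Fin m → Fin k → Fin n) (ht : GoodScopes d q t)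
    {x b : Multiset (Inp m k)} (hnd : b.Nodup) (hx : x ≤ b) {a c : Fin n → Bool}
    (hc : ∀ i ∈ b, i.2 = c ∘ t i.1)
    (hbig : m < q * x.countP (fun i => i.2 = a ∘ t i.1)) : hammingDist a c ≤ d := by
  classical
  by_contra hcon
  have h1 := ht a c (not_le.1 hcon)
  have hxn : x.Nodup := Multiset.nodup_of_le hx hnd
  have h2 : x.countP (fun i => i.2 = a ∘ t i.1) ≤
      (Finset.univ.filter (fun j => a ∘ t j = c ∘ t j)).card := by
    rw [Multiset.countP_eq_card_filter]
    have h3 : (⟨x.filter (fun i => i.2 = a ∘ t i.1), hxn.filter _⟩ : Finset (Inp m k)).card ≤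
        (Finset.univ.filter (fun j => a ∘ t j = c ∘ t j)).card := by
      refine Finset.card_le_card_of_injOn Prod.fst ?_ ?_
      · intro i hi
        have hi' : i ∈ x.filter (fun i => i.2 = a ∘ t i.1) := hi
        obtain ⟨hi1, hi2⟩ := Multiset.mem_filter.1 hi'
        refine Finset.mem_coe.2 (Finset.mem_filter.2 ⟨Finset.mem_univ _, ?_⟩)
        rw [← hi2, hc i (Multiset.mem_of_le hx hi1)]
      · intro i hi i' hi' hii
        have hi1 : i ∈ x.filter (fun i => i.2 = a ∘ t i.1) := hi
        have hi2 : i' ∈ x.filter (fun i => i.2 = a ∘ t i.1) := hi'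
        have h4 := (Multiset.mem_filter.1 hi1).2
        have h5 := (Multiset.mem_filter.1 hi2).2
        apply Prod.ext hii
        rw [h4, h5, hii]
    exact h3
  have h3 := Nat.mul_le_mul_left q h2
  omega

/-- The bound for (max,+) circuits. -/
theorem maxPlus_bound {n m k s : ℕ} (C : Circuit (Inp m k) ℝ≥0 s)
    (t : Fin m → Fin k → Fin n) (d q V : ℕ) (r : ℝ)
    (hV : ∀ a : Fin n → Bool, (Finset.univ.filter (fun c => hammingDist a c ≤ 2 * d)).card ≤ V)
    (ht : GoodScopes d q t) (hr0 : 0 < r) (hn : 6 * r ≤ m) (hq : 3 * r < q)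
    (hC : ∀ w, (∃ a, maxPlus C w ≤ cost t w a) ∧ ∀ a, (cost t w a : ℝ) ≤ r * maxPlus C w) :
    2 ^ n ≤ s * V := by
  classical
  -- the cut proof trees
  have hch : ∀ a : Fin n → Bool, ∃ (u : Fin s) (b x : Multiset (Inp m k)),
      Ctx C (fun _ => True) (.gate u) C.out b ∧ ProofTree C (fun _ => True) (.gate u) x ∧
      m < q * b.countP (fun i => i.2 = a ∘ t i.1) ∧
      m < q * x.countP (fun i => i.2 = a ∘ t i.1) := by
    intro a
    set w : Inp m k → ℝ≥0 := fun i => if i.2 = a ∘ t i.1 then 1 else 0 with hw
    obtain ⟨b, κ, hb, h1, h2⟩ := exists_tree_ge C w C.out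
    have hκ : κ = 0 := by
      obtain ⟨c, hc⟩ := (hC (fun _ => 0)).1
      have h3 : cost t (fun _ => 0) c = 0 := by simp [cost]
      rw [h3] at hc
      exact le_antisymm (h2.trans hc) zero_le
    have hcost : cost t w a = m := by simp [cost, hw]
    have hsum : (b.map w).sum = (b.countP (fun i => i.2 = a ∘ t i.1) : ℝ≥0) := by
      clear h1 hb
      induction b using Multiset.induction_on with
      | empty => simp
      | cons i b ih =>
        rw [Multiset.map_cons, Multiset.sum_cons, ih, Multiset.countP_cons]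
        by_cases hi : i.2 = a ∘ t i.1
        · simp [hw, hi, add_comm]
        · simp [hw, hi]
    have h3 : (m : ℝ) ≤ r * b.countP (fun i => i.2 = a ∘ t i.1) := by
      have h4 := (hC w).2 a
      rw [hcost] at h4
      have h5 : (maxPlus C w : ℝ) ≤ (b.countP (fun i => i.2 = a ∘ t i.1) : ℝ) := by
        rw [hκ, zero_add, hsum] at h1
        exact_mod_cast h1
      have h6 : (m : ℝ) ≤ r * maxPlus C w := by simpa using h4
      exact h6.trans (mul_le_mul_of_nonneg_left h5 hr0.le)
    have h6 : 6 ≤ b.countP (fun i => i.2 = a ∘ t i.1) := by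
      have : (6 : ℝ) ≤ b.countP (fun i => i.2 = a ∘ t i.1) := by
        by_contra hcon
        have hcon := not_le.1 hcon
        have := mul_lt_mul_of_pos_left hcon hr0
        linarith
      exact_mod_cast this
    obtain ⟨u, b₀, x, hu, hx, _, e₁, e₂⟩ := hb.cut h6
    have hbig : ∀ z : ℕ, b.countP (fun i => i.2 = a ∘ t i.1) ≤ 3 * z → m < q * z := by
      intro z hz
      have hz1 : (1 : ℝ) ≤ z := by
        have : 1 ≤ z := by omega
        exact_mod_cast this
      have hz' : (b.countP (fun i => i.2 = a ∘ t i.1) : ℝ) ≤ 3 * z := by exact_mod_cast hz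
      have h7 : (m : ℝ) < q * z := by
        calc (m : ℝ) ≤ r * b.countP (fun i => i.2 = a ∘ t i.1) := h3
          _ ≤ r * (3 * z) := mul_le_mul_of_nonneg_left hz' hr0.le
          _ = 3 * r * z := by ring
          _ < q * z := mul_lt_mul_of_pos_right hq (by linarith)
      exact_mod_cast h7
    exact ⟨u, b₀, x, hu, hx, hbig _ e₁, hbig _ e₂⟩
  choose u b x hu hx hb1 hx1 using hch
  by_contra hcon
  have hcon := not_le.1 hcon
  -- two far assignments with the same gate
  have hpig : ∃ g : Fin s, V < (Finset.univ.filter (fun a => u a = g)).card := by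
    by_contra hno
    push Not at hno
    have h1 : (Finset.univ : Finset (Fin n → Bool)).card =
        ∑ g : Fin s, (Finset.univ.filter (fun a => u a = g)).card :=
      Finset.card_eq_sum_card_fiberwise (fun a _ => Finset.mem_coe.2 (Finset.mem_univ _))
    have h2 : ∑ g : Fin s, (Finset.univ.filter (fun a => u a = g)).card ≤ ∑ _g : Fin s, V :=
      Finset.sum_le_sum (fun g _ => hno g)
    have h3 : (Finset.univ : Finset (Fin n → Bool)).card = 2 ^ n := by simp
    have h4 : ∑ _g : Fin s, V = s * V := by simp
    omega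
  obtain ⟨g, hg⟩ := hpig
  obtain ⟨a, ha⟩ := Finset.card_pos.1 (lt_of_le_of_lt (Nat.zero_le _) hg)
  obtain ⟨a', ha', hna⟩ := Finset.exists_mem_notMem_of_card_lt_card (lt_of_le_of_lt (hV a) hg)
  have hfar : 2 * d < hammingDist a a' := by
    by_contra h
    exact hna (Finset.mem_filter.2 ⟨Finset.mem_univ _, not_lt.1 h⟩)
  have hua : u a = g := (Finset.mem_filter.1 ha).2
  have hua' : u a' = g := (Finset.mem_filter.1 ha').2
  have hmix : ProofTree C (fun _ => True) C.out (b a + x a') :=
    (hu a).fill (by rw [hua, ← hua']; exact hx a')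
  obtain ⟨hnd, c, hc⟩ := max_sound C t (fun w => (hC w).1) hmix
  have h1 := agree_of_piece t ht hnd (Multiset.le_add_right _ _) hc (hb1 a)
  have h2 := agree_of_piece t ht hnd (Multiset.le_add_left _ _) hc (hx1 a')
  have h3 := hammingDist_triangle a c a'
  rw [hammingDist_comm c a'] at h3
  omega

end Pool.Agent.H86.Mct
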