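import Pool.Agent.H86.Mct.Mod

/-!
# Brute force

The circuit which tries all assignments: `m 2 ^ n` gates, and proof trees with `m` leaves.
-/

namespace Pool.Agent.H86.Mct

variable {L K : Type} {s : ℕ}

/-- A node, seen in a circuit with one more gate. -/
def Node.up : Node L K s → Node L K (s + 1)
  | .leaf x => .leaf x
  | .const c => .const c
  | .gate g => .gate g.castSucc

theorem Node.up_gate {v : Node L K s} {h : Fin (s + 1)} (e : v.up = .gate h) :
    ∃ h' : Fin s, v = .gate h' ∧ h = h'.castSucc := by
  cases v with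
  | leaf x => simp [Node.up] at e
  | const c => simp [Node.up] at e
  | gate g =>
    simp only [Node.up, Node.gate.injEq] at e
    exact ⟨g, rfl, e.symm⟩

/-- Adding a gate of kind `c` with the entries `x` and `y`, which becomes the output. -/
def Circuit.snoc (C : Circuit L K s) (c : Bool) (x y : Node L K s) : Circuit L K (s + 1) where
  conj := fun g => Fin.lastCases (motive := fun _ => Bool) c (fun i => C.conj i) g
  left := fun g => Fin.lastCases (motive := fun _ => Node L K (s + 1)) x.up
    (fun i => (C.left i).up) g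
  right := fun g => Fin.lastCases (motive := fun _ => Node L K (s + 1)) y.up
    (fun i => (C.right i).up) g
  out := .gate (Fin.last s)
  left_lt := by
    intro g h
    induction g using Fin.lastCases with
    | last =>
      intro e
      simp only [Fin.lastCases_last] at e
      obtain ⟨h', _, rfl⟩ := Node.up_gate e
      exact Fin.castSucc_lt_last h'
    | cast i =>
      intro e
      simp only [Fin.lastCases_castSucc] at e
      obtain ⟨h', e', rfl⟩ := Node.up_gate e
      exact Fin.castSucc_lt_castSucc_iff.2 (C.left_lt i h' e')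
  right_lt := by
    intro g h
    induction g using Fin.lastCases with
    | last =>
      intro e
      simp only [Fin.lastCases_last] at e
      obtain ⟨h', _, rfl⟩ := Node.up_gate e
      exact Fin.castSucc_lt_last h'
    | cast i =>
      intro e
      simp only [Fin.lastCases_castSucc] at e
      obtain ⟨h', e', rfl⟩ := Node.up_gate e
      exact Fin.castSucc_lt_castSucc_iff.2 (C.right_lt i h' e')

theorem snoc_conj_last (C : Circuit L K s) (c : Bool) (x y : Node L K s) :
    (C.snoc c x y).conj (Fin.last s) = c := by simp [Circuit.snoc]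

theorem snoc_left_last (C : Circuit L K s) (c : Bool) (x y : Node L K s) :
    (C.snoc c x y).left (Fin.last s) = x.up := by simp [Circuit.snoc]

theorem snoc_right_last (C : Circuit L K s) (c : Bool) (x y : Node L K s) :
    (C.snoc c x y).right (Fin.last s) = y.up := by simp [Circuit.snoc]

theorem snoc_conj (C : Circuit L K s) (c : Bool) (x y : Node L K s) (g : Fin s) :
    (C.snoc c x y).conj g.castSucc = C.conj g := by simp [Circuit.snoc]

theorem snoc_left (C : Circuit L K s) (c : Bool) (x y : Node L K s) (g : Fin s) :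
    (C.snoc c x y).left g.castSucc = (C.left g).up := by simp [Circuit.snoc]

theorem snoc_right (C : Circuit L K s) (c : Bool) (x y : Node L K s) (g : Fin s) :
    (C.snoc c x y).right g.castSucc = (C.right g).up := by simp [Circuit.snoc]

/-- Inversion at a gate. -/
theorem proofTree_gate {C : Circuit L K s} {ok : K → Prop} {g : Fin s} {b : Multiset L} :
    ProofTree C ok (.gate g) b ↔
      (C.conj g = true ∧ ∃ b₁ b₂, b = b₁ + b₂ ∧ ProofTree C ok (C.left g) b₁ ∧
        ProofTree C ok (C.right g) b₂) ∨
      (C.conj g = false ∧ (ProofTree C ok (C.left g) b ∨ ProofTree C ok (C.right g) b)) := by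
  constructor
  · intro h
    cases h with
    | both _ b₁ b₂ h h₁ h₂ => exact Or.inl ⟨h, b₁, b₂, rfl, h₁, h₂⟩
    | left _ _ h h₁ => exact Or.inr ⟨h, Or.inl h₁⟩
    | right _ _ h h₁ => exact Or.inr ⟨h, Or.inr h₁⟩
  · rintro (⟨h, b₁, b₂, rfl, h₁, h₂⟩ | ⟨h, h₁ | h₁⟩)
    · exact ProofTree.both g b₁ b₂ h h₁ h₂
    · exact ProofTree.left g b h h₁
    · exact ProofTree.right g b h h₁

theorem proofTree_leaf {C : Circuit L K s} {ok : K → Prop} {x : L} {b : Multiset L} :
    ProofTree C ok (.leaf x) b ↔ b = {x} := by
  constructor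
  · intro h
    cases h
    rfl
  · rintro rfl
    exact ProofTree.leaf x

theorem snoc_up (C : Circuit L K s) (c : Bool) (x y : Node L K s) (ok : K → Prop)
    (v : Node L K s) : ∀ b, ProofTree (C.snoc c x y) ok v.up b ↔ ProofTree C ok v b := by
  induction v using C.node_induction with
  | hl z =>
    intro b
    show ProofTree (C.snoc c x y) ok (.leaf z) b ↔ _
    rw [proofTree_leaf, proofTree_leaf]
  | hc z =>
    intro b
    constructor
    · intro h
      have h' : ProofTree (C.snoc c x y) ok (.const z) b := h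
      cases h' with
      | const _ hz => exact ProofTree.const z hz
    · intro h
      cases h with
      | const _ hz => exact ProofTree.const z hz
  | hg g ih₁ ih₂ =>
    intro b
    show ProofTree (C.snoc c x y) ok (.gate g.castSucc) b ↔ _
    rw [proofTree_gate, proofTree_gate, snoc_conj, snoc_left, snoc_right]
    simp only [ih₁, ih₂]

/-- Adding the conjunction of a list of leaves. -/
theorem exists_row (ok : K → Prop) (x : L) (xs : List L) :
    ∀ (s : ℕ) (C : Circuit L K s), ∃ (s' : ℕ) (C' : Circuit L K s') (u : Node L K s'),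
      s' ≤ s + xs.length ∧ (∀ b, ProofTree C' ok u b ↔ b = (x :: xs : List L)) ∧
      ∀ v : Node L K s, ∃ v' : Node L K s',
        ∀ b, ProofTree C' ok v' b ↔ ProofTree C ok v b := by
  induction xs generalizing x with
  | nil =>
    intro s C
    exact ⟨s, C, .leaf x, le_rfl, fun b => by rw [proofTree_leaf]; rfl,
      fun v => ⟨v, fun b => Iff.rfl⟩⟩
  | cons y ys ih =>
    intro s C
    obtain ⟨s', C', u, hs', hu, hv⟩ := ih y s C
    refine ⟨s' + 1, C'.snoc true (.leaf x) u, .gate (Fin.last _), ?_, ?_, ?_⟩
    · simp only [List.length_cons]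
      omega
    · intro b
      rw [proofTree_gate, snoc_conj_last, snoc_left_last, snoc_right_last]
      have h1 : ∀ b, ProofTree (C'.snoc true (.leaf x) u) ok (Node.leaf x : Node L K _).up b ↔
          b = {x} := fun b => by rw [snoc_up, proofTree_leaf]
      simp only [h1, snoc_up, hu]
      constructor
      · rintro (⟨_, b₁, b₂, rfl, rfl, rfl⟩ | ⟨h, _⟩)
        · rfl
        · exact absurd h (by simp)
      · rintro rfl
        exact Or.inl ⟨trivial, {x}, _, rfl, rfl, rfl⟩
    · intro v
      obtain ⟨v', hv'⟩ := hv v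
      exact ⟨v'.up, fun b => by rw [snoc_up, hv']⟩

/-- Changing the output. -/
def Circuit.withOut (C : Circuit L K s) (u : Node L K s) : Circuit L K s :=
  ⟨C.conj, C.left, C.right, u, C.left_lt, C.right_lt⟩

theorem withOut_iff (C : Circuit L K s) (ok : K → Prop) (u v : Node L K s) (b : Multiset L) :
    ProofTree (C.withOut u) ok v b ↔ ProofTree C ok v b := by
  constructor
  · intro h
    induction h with
    | leaf x => exact ProofTree.leaf x
    | const c h => exact ProofTree.const c h
    | both g b₁ b₂ h _ _ ih₁ ih₂ => exact ProofTree.both g b₁ b₂ h ih₁ ih₂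
    | left g b h _ ih => exact ProofTree.left g b h ih
    | right g b h _ ih => exact ProofTree.right g b h ih
  · intro h
    induction h with
    | leaf x => exact ProofTree.leaf x
    | const c h => exact ProofTree.const c h
    | both g b₁ b₂ h _ _ ih₁ ih₂ => exact ProofTree.both (C := C.withOut u) g b₁ b₂ h ih₁ ih₂
    | left g b h _ ih => exact ProofTree.left (C := C.withOut u) g b h ih
    | right g b h _ ih => exact ProofTree.right (C := C.withOut u) g b h ih

/-- The disjunction of the conjunctions of finitely many nonempty lists of leaves of the same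
length. -/
theorem exists_rows (ok : K → Prop) (l : ℕ) (R : List (L × List L)) (hR : R ≠ [])
    (hl : ∀ ρ ∈ R, ρ.2.length = l) :
    ∃ (s : ℕ) (C : Circuit L K s), s ≤ R.length * (l + 1) ∧
      ∀ b, ProofTree C ok C.out b ↔ ∃ ρ ∈ R, b = (ρ.1 :: ρ.2 : List L) := by
  induction R with
  | nil => exact absurd rfl hR
  | cons ρ R ih =>
    have hlen := hl ρ (by simp)
    by_cases hR' : R = []
    · subst hR'
      obtain ⟨s', C', u, hs', hu, _⟩ := exists_row ok ρ.1 ρ.2 0
        (⟨fun g => g.elim0, fun g => g.elim0, fun g => g.elim0, .leaf ρ.1,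
          fun g => g.elim0, fun g => g.elim0⟩ : Circuit L K 0)
      refine ⟨s', C'.withOut u, ?_, ?_⟩
      · simp only [List.length_singleton]
        omega
      · intro b
        show ProofTree (C'.withOut u) ok u b ↔ _
        rw [withOut_iff, hu]
        simp
    · obtain ⟨s, C, hs, hC⟩ := ih hR' (fun ρ' hρ' => hl ρ' (List.mem_cons_of_mem _ hρ'))
      obtain ⟨s', C', u, hs', hu, hv⟩ := exists_row ok ρ.1 ρ.2 s C
      obtain ⟨v', hv'⟩ := hv C.out
      refine ⟨s' + 1, C'.snoc false u v', ?_, ?_⟩
      · simp only [List.length_cons, Nat.add_mul, Nat.one_mul]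
        omega
      · intro b
        show ProofTree (C'.snoc false u v') ok (.gate (Fin.last _)) b ↔ _
        rw [proofTree_gate, snoc_conj_last, snoc_left_last, snoc_right_last, snoc_up, snoc_up,
          hu, hv', hC]
        simp

/-- Acceptance is witnessed by a proof tree. -/
theorem exists_tree_of_eval {m k s : ℕ} (C : Circuit (Lit m k) Bool s) (y : Inp m k → Bool)
    (v : Node (Lit m k) Bool s)
    (h : C.eval (litVal y) id (fun p q => p && q) (fun p q => p || q) v = true) :
    ∃ b, ProofTree C (fun c => c = true) v b ∧ ∀ l ∈ b, litVal y l = true := by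
  induction v using C.node_induction with
  | hl x =>
    rw [Circuit.eval_leaf] at h
    exact ⟨{x}, ProofTree.leaf x, fun l hl => by rw [Multiset.mem_singleton.1 hl]; exact h⟩
  | hc c =>
    rw [Circuit.eval_const] at h
    exact ⟨0, ProofTree.const c h, fun l hl => absurd hl (Multiset.notMem_zero l)⟩
  | hg g ih₁ ih₂ =>
    by_cases hg : C.conj g = true
    · rw [Circuit.eval_conj _ _ _ _ _ _ hg, Bool.and_eq_true] at h
      obtain ⟨b₁, d₁, e₁⟩ := ih₁ h.1
      obtain ⟨b₂, d₂, e₂⟩ := ih₂ h.2
      exact ⟨b₁ + b₂, ProofTree.both g b₁ b₂ hg d₁ d₂, fun l hl =>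
        (Multiset.mem_add.1 hl).elim (e₁ l) (e₂ l)⟩
    · have hg' : C.conj g = false := by simpa using hg
      rw [Circuit.eval_disj _ _ _ _ _ _ hg', Bool.or_eq_true] at h
      rcases h with h | h
      · obtain ⟨b₁, d₁, e₁⟩ := ih₁ h
        exact ⟨b₁, ProofTree.left g b₁ hg' d₁, e₁⟩
      · obtain ⟨b₂, d₂, e₂⟩ := ih₂ h
        exact ⟨b₂, ProofTree.right g b₂ hg' d₂, e₂⟩

/-- Brute force. -/
theorem brute_force {n m k : ℕ} (hm : 0 < m) (t : Fin m → Fin k → Fin n) :
    ∃ (s : ℕ) (C : Circuit (Lit m k) Bool s), s ≤ 2 ^ n * m ∧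
      (∀ y, accepts C y = true ↔ Satisfiable t y) ∧
      ∀ a, HasTree C (planted t a) m 0 := by
  obtain ⟨l, rfl⟩ : ∃ l, m = l + 1 := ⟨m - 1, by omega⟩
  -- the row of an assignment
  let row : (Fin n → Bool) → Lit (l + 1) k × List (Lit (l + 1) k) := fun a =>
    (((0, a ∘ t 0), true), List.ofFn (fun j : Fin l => ((j.succ, a ∘ t j.succ), true)))
  have hrow : ∀ a, ((row a).1 :: (row a).2 : List (Lit (l + 1) k)) =
      List.ofFn (fun j : Fin (l + 1) => ((j, a ∘ t j), true)) := by
    intro a
    rw [List.ofFn_succ]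
  obtain ⟨s, C, hs, hC⟩ := exists_rows (K := Bool) (fun c => c = true) l
    ((Finset.univ : Finset (Fin n → Bool)).toList.map row)
    (by
      simp only [ne_eq, List.map_eq_nil_iff, Finset.toList_eq_nil]
      exact Finset.univ_nonempty.ne_empty)
    (by
      intro ρ hρ
      obtain ⟨a, _, rfl⟩ := List.mem_map.1 hρ
      simp [row])
  have hC' : ∀ b, ProofTree C (fun c => c = true) C.out b ↔
      ∃ a : Fin n → Bool, b = (List.ofFn (fun j : Fin (l + 1) => ((j, a ∘ t j), true)) :
        List (Lit (l + 1) k)) := by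
    intro b
    rw [hC]
    constructor
    · rintro ⟨ρ, hρ, rfl⟩
      obtain ⟨a, _, rfl⟩ := List.mem_map.1 hρ
      exact ⟨a, by rw [hrow]⟩
    · rintro ⟨a, rfl⟩
      exact ⟨row a, List.mem_map.2 ⟨a, by simp, rfl⟩, by rw [hrow]⟩
  refine ⟨s, C, ?_, ?_, ?_⟩
  · simpa using hs
  · intro y
    constructor
    · intro h
      obtain ⟨b, hb, hy⟩ := exists_tree_of_eval C y C.out h
      obtain ⟨a, rfl⟩ := (hC' b).1 hb
      refine ⟨a, fun j => ?_⟩
      have := hy ((j, a ∘ t j), true) (by
        rw [Multiset.mem_coe, List.mem_ofFn]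
        exact ⟨j, rfl⟩)
      simpa [litVal] using this
    · rintro ⟨a, ha⟩
      refine ProofTree.eval_true ((hC' _).2 ⟨a, rfl⟩) ?_
      intro e he
      rw [Multiset.mem_coe, List.mem_ofFn] at he
      obtain ⟨j, rfl⟩ := he
      simpa [litVal] using ha j
  · intro a
    refine ⟨_, (hC' _).2 ⟨a, rfl⟩, ?_, ?_, ?_⟩
    · intro e he
      rw [Multiset.mem_coe, List.mem_ofFn] at he
      obtain ⟨j, rfl⟩ := he
      simp [litVal, planted]
    · refine le_trans (Nat.cast_le.2 (Multiset.countP_le_card _ _)) ?_
      simp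
    · rw [Nat.le_zero, Finset.card_eq_zero, Finset.eq_empty_iff_forall_notMem]
      intro e he
      obtain ⟨h1, h2⟩ := Finset.mem_filter.1 he
      rw [Multiset.mem_toFinset, Multiset.mem_coe, List.mem_ofFn] at h1
      obtain ⟨j, rfl⟩ := h1
      simp at h2

end Pool.Agent.H86.Mct
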