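import Pool.Agent.H86.Mct.Dfn

/-!
# Evaluation and proof trees with one hole
-/

namespace Pool.Agent.H86.Mct

variable {L K : Type} {s : ℕ}

theorem Circuit.eval_leaf {α : Type} (C : Circuit L K s) (inp : L → α) (cst : K → α)
    (con dis : α → α → α) (x : L) : C.eval inp cst con dis (.leaf x) = inp x := by
  rw [Circuit.eval]

theorem Circuit.eval_const {α : Type} (C : Circuit L K s) (inp : L → α) (cst : K → α)
    (con dis : α → α → α) (c : K) : C.eval inp cst con dis (.const c) = cst c := by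
  rw [Circuit.eval]

theorem Circuit.eval_conj {α : Type} (C : Circuit L K s) (inp : L → α) (cst : K → α)
    (con dis : α → α → α) (g : Fin s) (h : C.conj g = true) :
    C.eval inp cst con dis (.gate g) =
      con (C.eval inp cst con dis (C.left g)) (C.eval inp cst con dis (C.right g)) := by
  rw [Circuit.eval, if_pos h]

theorem Circuit.eval_disj {α : Type} (C : Circuit L K s) (inp : L → α) (cst : K → α)
    (con dis : α → α → α) (g : Fin s) (h : C.conj g = false) :
    C.eval inp cst con dis (.gate g) =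
      dis (C.eval inp cst con dis (C.left g)) (C.eval inp cst con dis (C.right g)) := by
  rw [Circuit.eval, if_neg (by simp [h])]

/-- Induction on the nodes of a circuit. -/
theorem Circuit.node_induction (C : Circuit L K s) {P : Node L K s → Prop}
    (hl : ∀ x, P (.leaf x)) (hc : ∀ c, P (.const c))
    (hg : ∀ g, P (C.left g) → P (C.right g) → P (.gate g)) (v : Node L K s) : P v := by
  have key : ∀ m : ℕ, ∀ v : Node L K s, v.rank < m → P v := by
    intro m
    induction m with
    | zero => intro v hv; omega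
    | succ m ih =>
      intro v hv
      cases v with
      | leaf x => exact hl x
      | const c => exact hc c
      | gate g =>
        refine hg g (ih _ ?_) (ih _ ?_)
        · have := C.rank_left g; omega
        · have := C.rank_right g; omega
  exact key (v.rank + 1) v (Nat.lt_succ_self _)

/-- Proof trees at the node `v` with one hole, at the node `u`. -/
inductive Ctx (C : Circuit L K s) (ok : K → Prop) (u : Node L K s) :
    Node L K s → Multiset L → Prop
  | here : Ctx C ok u u 0
  | bothl (g : Fin s) (b₁ b₂ : Multiset L) (h : C.conj g = true)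
      (h₁ : Ctx C ok u (C.left g) b₁) (h₂ : ProofTree C ok (C.right g) b₂) :
      Ctx C ok u (.gate g) (b₁ + b₂)
  | bothr (g : Fin s) (b₁ b₂ : Multiset L) (h : C.conj g = true)
      (h₁ : ProofTree C ok (C.left g) b₁) (h₂ : Ctx C ok u (C.right g) b₂) :
      Ctx C ok u (.gate g) (b₁ + b₂)
  | left (g : Fin s) (b : Multiset L) (h : C.conj g = false)
      (h₁ : Ctx C ok u (C.left g) b) : Ctx C ok u (.gate g) b
  | right (g : Fin s) (b : Multiset L) (h : C.conj g = false)
      (h₁ : Ctx C ok u (C.right g) b) : Ctx C ok u (.gate g) b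

/-- Filling the hole. -/
theorem Ctx.fill {C : Circuit L K s} {ok : K → Prop} {u v : Node L K s} {b x : Multiset L}
    (h : Ctx C ok u v b) (hx : ProofTree C ok u x) : ProofTree C ok v (b + x) := by
  induction h with
  | here => simpa using hx
  | bothl g b₁ b₂ h _ h₂ ih =>
    rw [add_right_comm]
    exact ProofTree.both g _ _ h ih h₂
  | bothr g b₁ b₂ h h₁ _ ih =>
    rw [add_assoc]
    exact ProofTree.both g _ _ h h₁ ih
  | left g b h _ ih => exact ProofTree.left g _ h ih
  | right g b h _ ih => exact ProofTree.right g _ h ih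

/-- Composition of proof trees with one hole. -/
theorem Ctx.comp {C : Circuit L K s} {ok : K → Prop} {w u v : Node L K s} {b x : Multiset L}
    (h : Ctx C ok u v b) (hx : Ctx C ok w u x) : Ctx C ok w v (b + x) := by
  induction h with
  | here => simpa using hx
  | bothl g b₁ b₂ h _ h₂ ih =>
    rw [add_right_comm]
    exact Ctx.bothl g _ _ h ih h₂
  | bothr g b₁ b₂ h h₁ _ ih =>
    rw [add_assoc]
    exact Ctx.bothr g _ _ h h₁ ih
  | left g b h _ ih => exact Ctx.left g _ h ih
  | right g b h _ ih => exact Ctx.right g _ h ih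

theorem countP_singleton_le {p : L → Prop} [DecidablePred p] (y : L) :
    Multiset.countP p ({y} : Multiset L) ≤ 1 := by
  have := Multiset.countP_le_card p ({y} : Multiset L)
  simpa using this

/-- Splitting a proof tree with more than `D` leaves satisfying `p` at a lowest gate whose subtree
has more than `D` such leaves. -/
theorem ProofTree.split {C : Circuit L K s} {ok : K → Prop} {p : L → Prop} [DecidablePred p]
    {D : ℕ} (hD : 1 ≤ D) {v : Node L K s} {b : Multiset L} (h : ProofTree C ok v b)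
    (hb : D < b.countP p) :
    ∃ (g : Fin s) (b₀ x₁ x₂ : Multiset L), C.conj g = true ∧ ProofTree C ok (C.left g) x₁ ∧
      ProofTree C ok (C.right g) x₂ ∧ Ctx C ok (.gate g) v b₀ ∧ b = b₀ + (x₁ + x₂) ∧
      x₁.countP p ≤ D ∧ x₂.countP p ≤ D ∧ D < x₁.countP p + x₂.countP p := by
  induction h with
  | leaf y =>
    exfalso
    have := countP_singleton_le (p := p) y
    omega
  | const c h => simp at hb
  | both g b₁ b₂ h h₁ h₂ ih₁ ih₂ =>
    by_cases c₁ : D < b₁.countP p
    · obtain ⟨g', b₀, x₁, x₂, hg, hx₁, hx₂, h₀, rfl, e₁, e₂, e₃⟩ := ih₁ c₁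
      refine ⟨g', b₀ + b₂, x₁, x₂, hg, hx₁, hx₂, Ctx.bothl g b₀ b₂ h h₀ h₂, ?_, e₁, e₂, e₃⟩
      rw [add_right_comm]
    · by_cases c₂ : D < b₂.countP p
      · obtain ⟨g', b₀, x₁, x₂, hg, hx₁, hx₂, h₀, rfl, e₁, e₂, e₃⟩ := ih₂ c₂
        refine ⟨g', b₁ + b₀, x₁, x₂, hg, hx₁, hx₂, Ctx.bothr g b₁ b₀ h h₁ h₀, ?_, e₁, e₂, e₃⟩
        rw [add_assoc]
      · exact ⟨g, 0, b₁, b₂, h, h₁, h₂, Ctx.here, (zero_add _).symm,
          not_lt.1 c₁, not_lt.1 c₂, by rwa [Multiset.countP_add] at hb⟩
  | left g b h h₁ ih =>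
    obtain ⟨g', b₀, x₁, x₂, hg, hx₁, hx₂, h₀, e, e₁, e₂, e₃⟩ := ih hb
    exact ⟨g', b₀, x₁, x₂, hg, hx₁, hx₂, Ctx.left g b₀ h h₀, e, e₁, e₂, e₃⟩
  | right g b h h₁ ih =>
    obtain ⟨g', b₀, x₁, x₂, hg, hx₁, hx₂, h₀, e, e₁, e₂, e₃⟩ := ih hb
    exact ⟨g', b₀, x₁, x₂, hg, hx₁, hx₂, Ctx.right g b₀ h h₀, e, e₁, e₂, e₃⟩

/-- A proof tree with at least two leaves satisfying `p` is at a gate. -/
theorem ProofTree.exists_gate {C : Circuit L K s} {ok : K → Prop} {p : L → Prop}
    [DecidablePred p] {v : Node L K s} {b : Multiset L} (h : ProofTree C ok v b)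
    (hb : 1 < b.countP p) : ∃ u, v = .gate u := by
  cases h with
  | leaf y =>
    exfalso
    have := countP_singleton_le (p := p) y
    omega
  | const c h => simp at hb
  | both g => exact ⟨g, rfl⟩
  | left g => exact ⟨g, rfl⟩
  | right g => exact ⟨g, rfl⟩

/-- Cutting a proof tree with `W ≥ 6` leaves satisfying `p` at a gate whose subtree has more than
`W / 3` and at most `2 W / 3` such leaves. -/
theorem ProofTree.cut {C : Circuit L K s} {ok : K → Prop} {p : L → Prop} [DecidablePred p]
    {v : Node L K s} {b : Multiset L} (h : ProofTree C ok v b) (hb : 6 ≤ b.countP p) :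
    ∃ (u : Fin s) (b₀ x : Multiset L), Ctx C ok (.gate u) v b₀ ∧ ProofTree C ok (.gate u) x ∧
      b = b₀ + x ∧ b.countP p ≤ 3 * b₀.countP p ∧ b.countP p ≤ 3 * x.countP p := by
  obtain ⟨g, b₀, x₁, x₂, hg, hx₁, hx₂, h₀, rfl, e₁, e₂, e₃⟩ :=
    h.split (p := p) (D := 2 * b.countP p / 3) (by omega) (by omega)
  have hc : (b₀ + (x₁ + x₂)).countP p = b₀.countP p + (x₁.countP p + x₂.countP p) := by
    rw [Multiset.countP_add, Multiset.countP_add]
  rw [hc] at hb e₁ e₂ e₃
  by_cases hle : x₂.countP p ≤ x₁.countP p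
  · obtain ⟨u, hu⟩ := hx₁.exists_gate (p := p) (by omega)
    refine ⟨u, b₀ + x₂, x₁, ?_, hu ▸ hx₁, ?_, ?_, ?_⟩
    · have h1 := h₀.comp (Ctx.bothl g 0 x₂ hg (by rw [hu]; exact Ctx.here) hx₂)
      simpa using h1
    · rw [add_assoc, add_comm x₂ x₁]
    · rw [hc, Multiset.countP_add]
      omega
    · rw [hc]
      omega
  · obtain ⟨u, hu⟩ := hx₂.exists_gate (p := p) (by omega)
    refine ⟨u, b₀ + x₁, x₂, ?_, hu ▸ hx₂, ?_, ?_, ?_⟩
    · have h1 := h₀.comp (Ctx.bothr g x₁ 0 hg hx₁ (by rw [hu]; exact Ctx.here))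
      simpa using h1
    · rw [add_assoc]
    · rw [hc, Multiset.countP_add]
      omega
    · rw [hc]
      omega

end Pool.Agent.H86.Mct
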