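import Pool.Agent.H86.Mct.Sel

/-!
# Counting: small subsets, balls, and good systems of scopes
-/

namespace Pool.Agent.H86.Mct

open Finset

/-- The number of subsets of size at most `q` of a set with `N ≤ M n` elements is at most
`2 ^ (ε n)` if `q ≤ γ n`. -/
theorem subsets_bound (M : ℕ) {ε : ℝ} (hε : 0 < ε) :
    ∃ γ : ℝ, 0 < γ ∧ ∀ (X : Type) [Fintype X] [DecidableEq X] (n q : ℕ),
      Fintype.card X ≤ M * n → (q : ℝ) ≤ γ * n →
      (((univ : Finset (Finset X)).filter (fun Q => Q.card ≤ q)).card : ℝ) ≤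
        (2 : ℝ) ^ (ε * n) := by
  have hl : 0 < Real.log 2 := Real.log_pos (by norm_num)
  set u : ℝ := 1 + 2 * M / (ε * Real.log 2) with hu
  have hu1 : 0 < u := by positivity
  have hx : Real.exp (-u) * M ≤ ε * Real.log 2 / 2 := by
    have h1 : u < Real.exp u := by
      have := Real.add_one_le_exp u
      linarith
    have h2 : Real.exp (-u) * u ≤ 1 := by
      rw [Real.exp_neg]
      rw [inv_mul_le_iff₀ (Real.exp_pos u)]
      linarith
    have h3 : 2 * (M : ℝ) / (ε * Real.log 2) ≤ u := by rw [hu]; linarith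
    have h4 : 2 * (M : ℝ) ≤ u * (ε * Real.log 2) := by
      rwa [div_le_iff₀ (by positivity)] at h3
    have h5 : Real.exp (-u) * (2 * M) ≤ Real.exp (-u) * (u * (ε * Real.log 2)) :=
      mul_le_mul_of_nonneg_left h4 (Real.exp_pos _).le
    have h6 : Real.exp (-u) * (u * (ε * Real.log 2)) ≤ 1 * (ε * Real.log 2) := by
      rw [← mul_assoc]
      exact mul_le_mul_of_nonneg_right h2 (by positivity)
    linarith
  refine ⟨ε * Real.log 2 / (2 * u), by positivity, ?_⟩
  intro X _ _ n q hX hq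
  set x : ℝ := Real.exp (-u) with hxdef
  have hxpos : 0 < x := Real.exp_pos _
  have hx1 : x ≤ 1 := by
    rw [hxdef]
    exact Real.exp_le_one_iff.2 (by linarith)
  have htot : ∑ Q : Finset X, x ^ Q.card = (1 + x) ^ Fintype.card X := by
    have := Finset.sum_pow_mul_eq_add_pow x (1 : ℝ) (univ : Finset X)
    simp only [one_pow, mul_one, powerset_univ] at this
    rw [this, add_comm, card_univ]
  have hlow : (((univ : Finset (Finset X)).filter (fun Q => Q.card ≤ q)).card : ℝ) * x ^ q ≤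
      (1 + x) ^ Fintype.card X := by
    rw [← htot]
    calc (((univ : Finset (Finset X)).filter (fun Q => Q.card ≤ q)).card : ℝ) * x ^ q
        = ∑ _Q ∈ (univ : Finset (Finset X)).filter (fun Q => Q.card ≤ q), x ^ q := by
          rw [sum_const, nsmul_eq_mul]
      _ ≤ ∑ Q ∈ (univ : Finset (Finset X)).filter (fun Q => Q.card ≤ q), x ^ Q.card := by
          apply sum_le_sum
          intro Q hQ
          exact pow_le_pow_of_le_one hxpos.le hx1 (mem_filter.1 hQ).2
      _ ≤ ∑ Q : Finset X, x ^ Q.card :=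
          sum_le_sum_of_subset_of_nonneg (filter_subset _ _) (fun _ _ _ => by positivity)
  have hup : (1 + x) ^ Fintype.card X ≤ Real.exp (ε * Real.log 2 / 2 * n) := by
    calc (1 + x) ^ Fintype.card X ≤ (1 + x) ^ (M * n) :=
          pow_le_pow_right₀ (by linarith) hX
      _ ≤ (Real.exp x) ^ (M * n) := by
          apply pow_le_pow_left₀ (by linarith)
          have := Real.add_one_le_exp x
          linarith
      _ = Real.exp ((M * n : ℕ) * x) := by rw [← Real.exp_nat_mul]
      _ ≤ Real.exp (ε * Real.log 2 / 2 * n) := by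
          apply Real.exp_le_exp.2
          push_cast
          calc (M : ℝ) * n * x = (x * M) * n := by ring
            _ ≤ (ε * Real.log 2 / 2) * n := mul_le_mul_of_nonneg_right hx (Nat.cast_nonneg n)
  have hxq : Real.exp (-(ε * Real.log 2 / 2 * n)) ≤ x ^ q := by
    rw [hxdef, ← Real.exp_nat_mul]
    apply Real.exp_le_exp.2
    have : (q : ℝ) * u ≤ ε * Real.log 2 / (2 * u) * n * u :=
      mul_le_mul_of_nonneg_right hq hu1.le
    have h2 : ε * Real.log 2 / (2 * u) * n * u = ε * Real.log 2 / 2 * n := by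
      field_simp
    rw [h2] at this
    linarith
  have hfin : (((univ : Finset (Finset X)).filter (fun Q => Q.card ≤ q)).card : ℝ) *
      Real.exp (-(ε * Real.log 2 / 2 * n)) ≤ Real.exp (ε * Real.log 2 / 2 * n) :=
    (mul_le_mul_of_nonneg_left hxq (Nat.cast_nonneg _)).trans (hlow.trans hup)
  rw [Real.exp_neg, mul_inv_le_iff₀ (Real.exp_pos _), ← Real.exp_add] at hfin
  refine hfin.trans (le_of_eq ?_)
  rw [Real.rpow_def_of_pos (by norm_num : (0 : ℝ) < 2)]
  congr 1
  ring

/-- Hamming balls are small. -/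
theorem ball_bound {ε : ℝ} (hε : 0 < ε) :
    ∃ γ : ℝ, 0 < γ ∧ ∀ (n R : ℕ), (R : ℝ) ≤ γ * n → ∀ a : Fin n → Bool,
      ((univ.filter (fun c => hammingDist a c ≤ R)).card : ℝ) ≤ (2 : ℝ) ^ (ε * n) := by
  obtain ⟨γ, hγ, h⟩ := subsets_bound 1 hε
  refine ⟨γ, hγ, fun n R hR a => ?_⟩
  refine le_trans ?_ (h (Fin n) n R (by simp) hR)
  norm_cast
  refine Finset.card_le_card_of_injOn (fun c => univ.filter (fun i => a i ≠ c i)) ?_ ?_
  · intro c hc
    have hc' := (mem_filter.1 (Finset.mem_coe.1 hc)).2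
    refine Finset.mem_coe.2 (mem_filter.2 ⟨mem_univ _, ?_⟩)
    simpa [hammingDist] using hc'
  · intro c _ c' _ hcc
    funext i
    have := Finset.ext_iff.1 hcc i
    simp only [mem_filter, mem_univ, true_and] at this
    by_cases h : a i = c i
    · have h2 : a i = c' i := by
        by_contra h3
        exact (this.2 h3) h
      rw [← h, ← h2]
    · have h2 : a i ≠ c' i := this.1 h
      revert h h2
      cases a i <;> cases c i <;> cases c' i <;> simp

/-- The systems of scopes which are bad for `U` and `J`. -/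
def badFor {m k n : ℕ} (U : Finset (Fin n)) (J : Finset (Fin m)) :
    Finset (Fin m → Fin k → Fin n) :=
  Fintype.piFinset (fun j => Fintype.piFinset (fun _ => if j ∈ J then U else univ))

theorem card_badFor {m k n : ℕ} (U : Finset (Fin n)) (J : Finset (Fin m)) :
    (badFor (k := k) U J).card = (U.card ^ k) ^ J.card * (n ^ k) ^ (m - J.card) := by
  unfold badFor
  rw [Fintype.card_piFinset]
  have : ∀ j : Fin m, (Fintype.piFinset (fun _ : Fin k => if j ∈ J then U else univ)).card =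
      if j ∈ J then U.card ^ k else n ^ k := by
    intro j
    rw [Fintype.card_piFinset]
    by_cases h : j ∈ J <;> simp [h]
  simp only [this]
  rw [Finset.prod_ite]
  simp only [prod_const]
  congr 2
  · congr 1
    ext j
    simp
  · rw [Finset.filter_not, Finset.card_sdiff]
    simp

/-- The number of subsets with at most `Q` elements. -/
theorem card_small_subsets {X : Type} [Fintype X] [DecidableEq X] (Q : ℕ) :
    ((univ : Finset (Finset X)).filter (fun P => P.card ≤ Q)).card =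
      ∑ i ∈ range (Q + 1), (Fintype.card X).choose i := by
  rw [Finset.card_eq_sum_card_fiberwise (f := Finset.card) (t := range (Q + 1))]
  · apply Finset.sum_congr rfl
    intro i hi
    rw [← Finset.card_univ, ← Finset.card_powersetCard]
    congr 1
    ext P
    simp only [mem_filter, mem_univ, true_and, mem_powersetCard, subset_univ]
    rw [mem_range] at hi
    constructor
    · rintro ⟨_, h⟩
      exact h
    · intro h
      exact ⟨by omega, h⟩
  · intro P hP
    have := (mem_filter.1 (mem_coe.1 hP)).2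
    exact mem_coe.2 (mem_range.2 (by omega))

/-- A bound for binomial coefficients. -/
theorem choose_le_pow (m q j : ℕ) (hj : m ≤ q * j) :
    ((m.choose j : ℕ) : ℝ) ≤ (Real.exp 1 * q) ^ j := by
  rcases Nat.eq_zero_or_pos j with rfl | hj0
  · simp
  have h1 : ((m.choose j : ℕ) : ℝ) ≤ (m : ℝ) ^ j / (j.factorial : ℝ) :=
    Nat.choose_le_pow_div j m
  have h2 : (j : ℝ) ^ j / (j.factorial : ℝ) ≤ Real.exp j :=
    Real.pow_div_factorial_le_exp (j : ℝ) (Nat.cast_nonneg j) j
  have hj' : (0 : ℝ) < (j : ℝ) ^ j := by positivity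
  have hf : (0 : ℝ) < (j.factorial : ℝ) := by exact_mod_cast Nat.factorial_pos j
  have h3 : 1 / (j.factorial : ℝ) ≤ Real.exp j / (j : ℝ) ^ j := by
    rw [div_le_div_iff₀ hf hj', one_mul]
    rw [div_le_iff₀ hf] at h2
    exact h2
  have hm : (m : ℝ) ≤ q * j := by exact_mod_cast hj
  calc ((m.choose j : ℕ) : ℝ) ≤ (m : ℝ) ^ j / (j.factorial : ℝ) := h1
    _ = (m : ℝ) ^ j * (1 / (j.factorial : ℝ)) := by ring
    _ ≤ ((q : ℝ) * j) ^ j * (Real.exp j / (j : ℝ) ^ j) :=
        mul_le_mul (pow_le_pow_left₀ (Nat.cast_nonneg m) hm j) h3 (by positivity) (by positivity)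
    _ = (Real.exp 1 * q) ^ j := by
        rw [mul_pow, mul_pow, ← Real.exp_nat_mul, mul_one]
        field_simp

open Classical in
/-- Almost all systems of scopes are good. -/
theorem card_bad_le {m k n : ℕ} (hn : 0 < n) (d q z : ℕ) (hq : 0 < q) (ρ : ℝ) (hρ0 : 0 ≤ ρ)
    (hρ : ((n : ℝ) - (d + 1)) ≤ ρ * n) (hk : Real.exp 1 * q * ρ ^ k * 4 ^ z ≤ 1)
    (hz : n * q ≤ z * m) :
    (2 : ℝ) ^ n * ((univ.filter (fun t : Fin m → Fin k → Fin n => ¬ GoodScopes d q t)).card : ℝ) ≤
      ((n : ℝ) ^ k) ^ m := by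
  set j₀ : ℕ := m / q + 1 with hj₀
  have hj₀m : m < q * j₀ := by
    rw [hj₀, mul_add, mul_one]
    have := Nat.div_add_mod m q
    have h2 := Nat.mod_lt m hq
    omega
  set I : Finset (Finset (Fin n) × Finset (Fin m)) :=
    ((univ : Finset (Finset (Fin n))).filter (fun U => U.card + d < n)) ×ˢ
      (powersetCard j₀ (univ : Finset (Fin m))) with hI
  have hsub : (univ.filter (fun t : Fin m → Fin k → Fin n => ¬ GoodScopes d q t)) ⊆
      I.biUnion (fun UJ => badFor UJ.1 UJ.2) := by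
    intro t ht
    have ht' := (mem_filter.1 ht).2
    unfold GoodScopes at ht'
    push Not at ht'
    obtain ⟨a, c, hd, hqq⟩ := ht'
    have hcard : j₀ ≤ (univ.filter (fun j => a ∘ t j = c ∘ t j)).card := by
      have : m / q < (univ.filter (fun j => a ∘ t j = c ∘ t j)).card := by
        rw [Nat.div_lt_iff_lt_mul hq]
        rwa [mul_comm] at hqq
      omega
    obtain ⟨J, hJ, hJc⟩ := Finset.exists_subset_card_eq hcard
    rw [mem_biUnion]
    refine ⟨(univ.filter (fun i => a i = c i), J), ?_, ?_⟩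
    · rw [hI, mem_product]
      refine ⟨mem_filter.2 ⟨mem_univ _, ?_⟩, mem_powersetCard.2 ⟨subset_univ _, hJc⟩⟩
      have h1 : (univ.filter (fun i => a i = c i)).card + hammingDist a c = n := by
        unfold hammingDist
        rw [Finset.card_filter_add_card_filter_not]
        simp
      show (univ.filter (fun i => a i = c i)).card + d < n
      omega
    · unfold badFor
      rw [Fintype.mem_piFinset]
      intro j
      rw [Fintype.mem_piFinset]
      intro i
      by_cases hj : j ∈ J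
      · simp only [if_pos hj]
        refine mem_filter.2 ⟨mem_univ _, ?_⟩
        exact congrFun (mem_filter.1 (hJ hj)).2 i
      · simp only [if_neg hj]
        exact mem_univ _
  have hone : ∀ UJ ∈ I,
      ((badFor (k := k) UJ.1 UJ.2).card : ℝ) ≤ (ρ ^ k) ^ j₀ * ((n : ℝ) ^ k) ^ m := by
    rintro ⟨U, J⟩ hUJ
    rw [hI, mem_product] at hUJ
    obtain ⟨h1, h2⟩ := hUJ
    have h1 := (mem_filter.1 h1).2
    have h2 := (mem_powersetCard.1 h2).2
    simp only at h1 h2 ⊢
    rw [card_badFor, h2]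
    push_cast
    have hJm : j₀ ≤ m := by
      rw [← h2]
      have := Finset.card_le_univ J
      simpa using this
    have hU : (U.card : ℝ) ≤ ρ * n := by
      have : (U.card : ℝ) + d + 1 ≤ n := by exact_mod_cast h1
      linarith
    have hU2 : ((U.card : ℝ) ^ k) ^ j₀ ≤ (ρ ^ k) ^ j₀ * ((n : ℝ) ^ k) ^ j₀ := by
      rw [← mul_pow, ← mul_pow]
      apply pow_le_pow_left₀ (by positivity)
      exact pow_le_pow_left₀ (by positivity) hU k
    calc (((U.card : ℝ) ^ k) ^ j₀ * ((n : ℝ) ^ k) ^ (m - j₀))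
        ≤ (((ρ ^ k) ^ j₀ * ((n : ℝ) ^ k) ^ j₀) * ((n : ℝ) ^ k) ^ (m - j₀)) :=
          mul_le_mul_of_nonneg_right hU2 (by positivity)
      _ = (ρ ^ k) ^ j₀ * (((n : ℝ) ^ k) ^ j₀ * ((n : ℝ) ^ k) ^ (m - j₀)) := by ring
      _ = (ρ ^ k) ^ j₀ * ((n : ℝ) ^ k) ^ m := by
          rw [← pow_add, Nat.add_sub_cancel' hJm]
  have hIcard : (I.card : ℝ) ≤ 2 ^ n * (Real.exp 1 * q) ^ j₀ := by
    rw [hI, card_product, card_powersetCard]
    push_cast
    apply mul_le_mul _ _ (by positivity) (by positivity)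
    · have h1 : ((univ : Finset (Finset (Fin n))).filter (fun U => U.card + d < n)).card ≤
          2 ^ n := by
        refine (Finset.card_le_univ _).trans (le_of_eq ?_)
        simp
      exact_mod_cast h1
    · have := choose_le_pow m q j₀ hj₀m.le
      simpa using this
  have hsmall : (Real.exp 1 * q * ρ ^ k) ^ j₀ * 4 ^ n ≤ 1 := by
    have hzn : n ≤ z * j₀ := by
      have h1 : n * q ≤ (z * j₀) * q := by
        calc n * q ≤ z * m := hz
          _ ≤ z * (q * j₀) := Nat.mul_le_mul_left z hj₀m.le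
          _ = (z * j₀) * q := by ring
      exact Nat.le_of_mul_le_mul_right h1 hq
    calc (Real.exp 1 * q * ρ ^ k) ^ j₀ * 4 ^ n
        ≤ (Real.exp 1 * q * ρ ^ k) ^ j₀ * 4 ^ (z * j₀) :=
          mul_le_mul_of_nonneg_left (pow_le_pow_right₀ (by norm_num) hzn) (by positivity)
      _ = (Real.exp 1 * q * ρ ^ k * 4 ^ z) ^ j₀ := by rw [pow_mul, ← mul_pow]
      _ ≤ 1 := pow_le_one₀ (by positivity) hk
  have hbig : ((univ.filter (fun t : Fin m → Fin k → Fin n => ¬ GoodScopes d q t)).card : ℝ) ≤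
      2 ^ n * ((Real.exp 1 * q * ρ ^ k) ^ j₀ * ((n : ℝ) ^ k) ^ m) := by
    calc ((univ.filter (fun t : Fin m → Fin k → Fin n => ¬ GoodScopes d q t)).card : ℝ)
        ≤ ∑ UJ ∈ I, ((badFor (k := k) UJ.1 UJ.2).card : ℝ) := by
          exact_mod_cast (Finset.card_le_card hsub).trans Finset.card_biUnion_le
      _ ≤ ∑ _UJ ∈ I, (ρ ^ k) ^ j₀ * ((n : ℝ) ^ k) ^ m := sum_le_sum hone
      _ = (I.card : ℝ) * ((ρ ^ k) ^ j₀ * ((n : ℝ) ^ k) ^ m) := by
          rw [sum_const, nsmul_eq_mul]
      _ ≤ (2 ^ n * (Real.exp 1 * q) ^ j₀) * ((ρ ^ k) ^ j₀ * ((n : ℝ) ^ k) ^ m) :=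
          mul_le_mul_of_nonneg_right hIcard (by positivity)
      _ = 2 ^ n * ((Real.exp 1 * q * ρ ^ k) ^ j₀ * ((n : ℝ) ^ k) ^ m) := by
          rw [mul_pow (Real.exp 1 * q)]
          ring
  have h24 : (4 : ℝ) ^ n = 2 ^ n * 2 ^ n := by rw [← mul_pow]; norm_num
  calc (2 : ℝ) ^ n *
      ((univ.filter (fun t : Fin m → Fin k → Fin n => ¬ GoodScopes d q t)).card : ℝ)
      ≤ 2 ^ n * (2 ^ n * ((Real.exp 1 * q * ρ ^ k) ^ j₀ * ((n : ℝ) ^ k) ^ m)) :=
        mul_le_mul_of_nonneg_left hbig (by positivity)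
    _ = ((Real.exp 1 * q * ρ ^ k) ^ j₀ * 4 ^ n) * ((n : ℝ) ^ k) ^ m := by rw [h24]; ring
    _ ≤ 1 * ((n : ℝ) ^ k) ^ m := mul_le_mul_of_nonneg_right hsmall (by positivity)
    _ = ((n : ℝ) ^ k) ^ m := one_mul _

end Pool.Agent.H86.Mct
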