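import Mathlib

/-!
# Definitions: circuits, proof trees, satisfiability for a system of scopes, tropical circuits
-/

namespace Pool.Agent.H86.Mct

open scoped NNReal

/-- A node of a circuit with `s` gates: an input leaf, a constant leaf or a gate. -/
inductive Node (L K : Type) (s : ℕ) : Type
  | leaf : L → Node L K s
  | const : K → Node L K s
  | gate : Fin s → Node L K s

/-- Circuits with `s` gates of fan-in two.  Every gate has a kind `conj g`, two entries
`left g` and `right g`, and the gates are ordered so that entries come earlier. -/
structure Circuit (L K : Type) (s : ℕ) : Type where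
  /-- the kind of a gate -/
  conj : Fin s → Bool
  /-- the first entry of a gate -/
  left : Fin s → Node L K s
  /-- the second entry of a gate -/
  right : Fin s → Node L K s
  /-- the output node -/
  out : Node L K s
  left_lt : ∀ g h, left g = Node.gate h → h < g
  right_lt : ∀ g h, right g = Node.gate h → h < g

variable {L K : Type} {s : ℕ}

/-- The rank of a node, used for recursion. -/
def Node.rank : Node L K s → ℕ
  | .leaf _ => 0
  | .const _ => 0
  | .gate g => g.val + 1

theorem Circuit.rank_left (C : Circuit L K s) (g : Fin s) :
    (C.left g).rank < (Node.gate g : Node L K s).rank := by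
  cases h : C.left g with
  | leaf x => simp [Node.rank]
  | const x => simp [Node.rank]
  | gate u =>
    have := C.left_lt g u h
    simpa [Node.rank] using this

theorem Circuit.rank_right (C : Circuit L K s) (g : Fin s) :
    (C.right g).rank < (Node.gate g : Node L K s).rank := by
  cases h : C.right g with
  | leaf x => simp [Node.rank]
  | const x => simp [Node.rank]
  | gate u =>
    have := C.right_lt g u h
    simpa [Node.rank] using this

/-- The value of a node, where leaves have the values `inp x` and `cst c` and the two kinds of
gates are the binary operations `con` and `dis`. -/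
def Circuit.eval {α : Type} (C : Circuit L K s) (inp : L → α) (cst : K → α)
    (con dis : α → α → α) : Node L K s → α
  | .leaf x => inp x
  | .const c => cst c
  | .gate g =>
    if C.conj g = true then
      con (C.eval inp cst con dis (C.left g)) (C.eval inp cst con dis (C.right g))
    else
      dis (C.eval inp cst con dis (C.left g)) (C.eval inp cst con dis (C.right g))
  termination_by v => v.rank
  decreasing_by
    all_goals first
      | exact C.rank_left _
      | exact C.rank_right _

/-- Proof trees of the unfolded circuit (both entries of a gate of the first kind, one entry of a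
gate of the second kind): `ProofTree C ok v b` says that some proof tree at the node `v`, in which
only constants satisfying `ok` occur, has the multiset `b` of input leaves. -/
inductive ProofTree (C : Circuit L K s) (ok : K → Prop) : Node L K s → Multiset L → Prop
  | leaf (x : L) : ProofTree C ok (.leaf x) {x}
  | const (c : K) (h : ok c) : ProofTree C ok (.const c) 0
  | both (g : Fin s) (b₁ b₂ : Multiset L) (h : C.conj g = true)
      (h₁ : ProofTree C ok (C.left g) b₁) (h₂ : ProofTree C ok (C.right g) b₂) :
      ProofTree C ok (.gate g) (b₁ + b₂)
  | left (g : Fin s) (b : Multiset L) (h : C.conj g = false)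
      (h₁ : ProofTree C ok (C.left g) b) : ProofTree C ok (.gate g) b
  | right (g : Fin s) (b : Multiset L) (h : C.conj g = false)
      (h₁ : ProofTree C ok (C.right g) b) : ProofTree C ok (.gate g) b

/-- The inputs of an instance with `m` scopes of length `k`: the pairs of a scope and a pattern
on it. -/
abbrev Inp (m k : ℕ) : Type := Fin m × (Fin k → Bool)

/-- The instance `y` (where `y (j, σ) = true` means: on the scope number `j` the pattern `σ` is
allowed) is satisfiable: some assignment `a` shows an allowed pattern on every scope. -/
def Satisfiable {n m k : ℕ} (t : Fin m → Fin k → Fin n) (y : Inp m k → Bool) : Prop :=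
  ∃ a : Fin n → Bool, ∀ j, y (j, a ∘ t j) = true

/-- The planted instance of the assignment `a`: only the pattern of `a` is allowed on each
scope. -/
def planted {n m k : ℕ} (t : Fin m → Fin k → Fin n) (a : Fin n → Bool) : Inp m k → Bool :=
  fun i => decide (i.2 = a ∘ t i.1)

/-- Literals: `(i, true)` is the input `i`, and `(i, false)` is its negation. -/
abbrev Lit (m k : ℕ) : Type := Inp m k × Bool

/-- The value of a literal. -/
def litVal {m k : ℕ} (y : Inp m k → Bool) (l : Lit m k) : Bool := y l.1 == l.2

/-- The Boolean value computed by a De Morgan circuit (gates of the kind `conj` are AND gates,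
the others are OR gates, the leaves are literals and Boolean constants). -/
def accepts {m k s : ℕ} (C : Circuit (Lit m k) Bool s) (y : Inp m k → Bool) : Bool :=
  C.eval (litVal y) id (fun p q => p && q) (fun p q => p || q) C.out

/-- The instance `y` is accepted by a proof tree (all entries of an AND gate, one entry of an OR
gate, only the constant `true`, and all leaves are literals true at `y`) with at most `P` positive
leaves, counted with multiplicity, and with at most `Q` distinct negative literals. -/
def HasTree {m k s : ℕ} (C : Circuit (Lit m k) Bool s) (y : Inp m k → Bool) (P : ℝ) (Q : ℕ) : Prop :=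
  ∃ b : Multiset (Lit m k), ProofTree C (fun c => c = true) C.out b ∧
    (∀ l ∈ b, litVal y l = true) ∧
    (b.countP (fun l => l.2 = true) : ℝ) ≤ P ∧
    (b.toFinset.filter (fun l => l.2 = false)).card ≤ Q

/-- The total weight of the patterns of the assignment `a`. -/
def cost {n m k : ℕ} (t : Fin m → Fin k → Fin n) (w : Inp m k → ℝ≥0) (a : Fin n → Bool) : ℝ≥0 :=
  ∑ j, w (j, a ∘ t j)

/-- The value of a (min,+) circuit (gates of the kind `conj` add, the others take the minimum,
the leaves are input weights and nonnegative real constants). -/
def minPlus {m k s : ℕ} (C : Circuit (Inp m k) ℝ≥0 s) (w : Inp m k → ℝ≥0) : ℝ≥0 :=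
  C.eval w id (fun p q => p + q) (fun p q => min p q) C.out

/-- The value of a (max,+) circuit (gates of the kind `conj` add, the others take the maximum,
the leaves are input weights and nonnegative real constants). -/
def maxPlus {m k s : ℕ} (C : Circuit (Inp m k) ℝ≥0 s) (w : Inp m k → ℝ≥0) : ℝ≥0 :=
  C.eval w id (fun p q => p + q) (fun p q => max p q) C.out

end Pool.Agent.H86.Mct
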