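import Pool.Agent.H86.Mct.Circ

/-!
# Mixed proof trees

A large family of proof trees can be recombined to a proof tree which consists of few light
pieces belonging to pairwise far members of the family.
-/

namespace Pool.Agent.H86.Mct

variable {L K : Type} {s : ℕ} {A : Type}

/-- `Mix C ok p F b far ℓ v N S X`: the node `v` has a proof tree whose leaves are in `X` or in
one of at most `N` pieces of the proof trees of pairwise far members of `F`, which are also far
from the members of `S`, every piece having at most `ℓ` leaves satisfying `p`. -/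
def Mix (C : Circuit L K s) (ok : K → Prop) (p : L → Prop) [DecidablePred p] (F : Finset A)
    (b : A → Multiset L) (far : A → A → Prop) (ℓ : ℕ) (v : Node L K s) (N : ℕ) (S : List A)
    (X : Multiset L) : Prop :=
  ∃ P : List (A × Multiset L), P.length ≤ N ∧
    (∀ π ∈ P, π.1 ∈ F ∧ π.2 ≤ b π.1 ∧ π.2.countP p ≤ ℓ ∧ ∀ σ ∈ S, far σ π.1) ∧
    P.Pairwise (fun π π' => far π.1 π'.1) ∧
    ∃ b', ProofTree C ok v b' ∧ ∀ e ∈ b', e ∈ X ∨ ∃ π ∈ P, e ∈ π.2

section

variable (C : Circuit L K s) (ok : K → Prop) (p : L → Prop) [DecidablePred p] (F : Finset A)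
  (b : A → Multiset L) (far : A → A → Prop) (τ M : ℕ)

/-- The pair of the gate `u` and the level `i` is rich: it has mixed proof trees which avoid any
given short list of members. -/
def Rich (u : Fin s) (i : ℕ) : Prop :=
  1 ≤ i → ∀ S : List A, S.length + (2 * i - 1) ≤ M →
    Mix C ok p F b far (3 * τ) (.gate u) (2 * i - 1) S 0

/-- The proof tree of `a` has a piece at the gate `u` of level `j`. -/
def Sub (a : A) (u : Fin s) (j : ℕ) : Prop :=
  ∃ x ≤ b a, ProofTree C ok (.gate u) x ∧ x.countP p / τ = j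

variable {C ok p F b far τ M}

theorem mix_child (hτ : 2 ≤ τ) {a : A} {i : ℕ}
    (hgood : ∀ u j, j ≤ i → Sub C ok p b τ a u j → Rich C ok p F b far τ M u j)
    {v : Node L K s} {x : Multiset L} (hx : x ≤ b a) (hD : ProofTree C ok v x)
    (hlev : x.countP p / τ ≤ i) {S : List A} (hS : S.length + (2 * (x.countP p / τ) - 1) ≤ M) :
    Mix C ok p F b far (3 * τ) v (2 * (x.countP p / τ) - 1) S
      (if x.countP p < τ then x else 0) := by
  by_cases h : x.countP p < τ
  · rw [if_pos h]
    exact ⟨[], Nat.zero_le _, by simp, List.Pairwise.nil, x, hD, fun e he => Or.inl he⟩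
  · rw [if_neg h]
    obtain ⟨u, rfl⟩ := hD.exists_gate (p := p) (by omega)
    exact hgood u _ hlev ⟨x, hx, hD, rfl⟩
      ((Nat.one_le_div_iff (by omega)).2 (not_lt.1 h)) S hS

theorem exists_far_of_card [DecidableEq A] {V : ℕ}
    (hV : ∀ σ : A, ∀ E ⊆ F, (∀ a ∈ E, ¬ far σ a) → E.card ≤ V) (G : Finset A) (hG : G ⊆ F)
    (S : List A) (hcard : S.length * V < G.card) : ∃ a ∈ G, ∀ σ ∈ S, far σ a := by
  induction S generalizing G with
  | nil =>
    obtain ⟨a, ha⟩ := Finset.card_pos.1 (by simpa using hcard)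
    exact ⟨a, ha, by simp⟩
  | cons σ S ih =>
    classical
    have h1 : (G.filter (fun a => ¬ far σ a)).card ≤ V :=
      hV σ _ ((Finset.filter_subset _ _).trans hG) (fun a ha => (Finset.mem_filter.1 ha).2)
    have h2 : (G.filter (fun a => far σ a)).card + (G.filter (fun a => ¬ far σ a)).card =
      G.card := Finset.card_filter_add_card_filter_not _
    simp only [List.length_cons, Nat.succ_mul] at hcard
    obtain ⟨a, ha, hfar⟩ := ih (G.filter (fun a => far σ a))
      ((Finset.filter_subset _ _).trans hG) (by omega)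
    refine ⟨a, (Finset.mem_filter.1 ha).1, ?_⟩
    intro ρ hρ
    rcases List.mem_cons.1 hρ with rfl | hρ
    · exact (Finset.mem_filter.1 ha).2
    · exact hfar ρ hρ

theorem rich_of_large [DecidableEq A] (hτ : 2 ≤ τ) {V : ℕ}
    (hV : ∀ σ : A, ∀ E ⊆ F, (∀ a ∈ E, ¬ far σ a) → E.card ≤ V) (u : Fin s) (i : ℕ)
    (G : Finset A) (hG : G ⊆ F) (hsub : ∀ a ∈ G, Sub C ok p b τ a u i)
    (hgood : ∀ a ∈ G, ∀ u j, j < i → Sub C ok p b τ a u j → Rich C ok p F b far τ M u j)
    (hcard : M * V < G.card) : Rich C ok p F b far τ M u i := by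
  intro hi1 S hS
  obtain ⟨a, ha, hfar⟩ := exists_far_of_card hV G hG S
    (lt_of_le_of_lt (Nat.mul_le_mul_right V (by omega)) hcard)
  obtain ⟨x, hx, hD, hlev⟩ := hsub a ha
  by_cases hlight : x.countP p ≤ 3 * τ
  · refine ⟨[(a, x)], by simp only [List.length_singleton]; omega, ?_,
      List.pairwise_singleton _ _, x, hD, fun e he => Or.inr ⟨(a, x), by simp, he⟩⟩
    intro π hπ
    rw [List.mem_singleton] at hπ
    subst hπ
    exact ⟨hG ha, hx, hlight, hfar⟩
  · obtain ⟨i, rfl⟩ : ∃ j, i = j + 1 := ⟨i - 1, by omega⟩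
    obtain ⟨g, b₀, x₁, x₂, hg, hx₁, hx₂, h₀, rfl, e₁, e₂, e₃⟩ :=
      hD.split (D := x.countP p - τ) (p := p) (by omega) (by omega)
    have hcx : (b₀ + (x₁ + x₂)).countP p = b₀.countP p + (x₁.countP p + x₂.countP p) := by
      rw [Multiset.countP_add, Multiset.countP_add]
    have hlevel : ∀ y : Multiset L, y.countP p ≤ (b₀ + (x₁ + x₂)).countP p - τ →
        y.countP p / τ ≤ i := by
      intro y hy
      have h1 : y.countP p + τ ≤ (b₀ + (x₁ + x₂)).countP p := by omega
      have h2 : (y.countP p + τ) / τ ≤ (b₀ + (x₁ + x₂)).countP p / τ := Nat.div_le_div_right h1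
      rw [Nat.add_div_right _ (by omega), hlev] at h2
      omega
    have hl₁ := hlevel x₁ e₁
    have hl₂ := hlevel x₂ e₂
    have hl₁₂ : x₁.countP p / τ + x₂.countP p / τ ≤ i + 1 := by
      rw [← hlev, hcx]
      refine le_trans ?_ (Nat.div_le_div_right (c := τ)
        (show x₁.countP p + x₂.countP p ≤ b₀.countP p + (x₁.countP p + x₂.countP p) by omega))
      rw [Nat.le_div_iff_mul_le (by omega), Nat.add_mul]
      exact Nat.add_le_add (Nat.div_mul_le_self _ _) (Nat.div_mul_le_self _ _)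
    have hgood' : ∀ u j, j ≤ i → Sub C ok p b τ a u j → Rich C ok p F b far τ M u j :=
      fun u j hj => hgood a ha u j (by omega)
    have hle₁ : x₁ ≤ b a :=
      ((Multiset.le_add_right x₁ x₂).trans (Multiset.le_add_left (x₁ + x₂) b₀)).trans hx
    have hle₂ : x₂ ≤ b a :=
      ((Multiset.le_add_left x₂ x₁).trans (Multiset.le_add_left (x₁ + x₂) b₀)).trans hx
    generalize hj₁ : x₁.countP p / τ = j₁ at hl₁ hl₁₂
    generalize hj₂ : x₂.countP p / τ = j₂ at hl₂ hl₁₂
    obtain ⟨P₁, hP₁, hQ₁, hR₁, y₁, hy₁, hz₁⟩ := mix_child hτ hgood' hle₁ hx₁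
      (by rw [hj₁]; exact hl₁)
      (S := a :: S) (by rw [hj₁]; simp only [List.length_cons]; omega)
    obtain ⟨P₂, hP₂, hQ₂, hR₂, y₂, hy₂, hz₂⟩ := mix_child hτ hgood' hle₂ hx₂
      (by rw [hj₂]; exact hl₂)
      (S := P₁.map Prod.fst ++ a :: S)
      (by
        rw [hj₂]
        rw [hj₁] at hP₁
        simp only [List.length_append, List.length_map, List.length_cons]
        omega)
    rw [hj₁] at hP₁
    rw [hj₂] at hP₂
    set m₁ : Multiset L := if x₁.countP p < τ then x₁ else 0 with hm₁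
    set m₂ : Multiset L := if x₂.countP p < τ then x₂ else 0 with hm₂
    have hm₁' : m₁ ≤ x₁ := by
      rw [hm₁]
      split
      · exact le_refl _
      · exact Multiset.zero_le _
    have hm₂' : m₂ ≤ x₂ := by
      rw [hm₂]
      split
      · exact le_refl _
      · exact Multiset.zero_le _
    have hw₁ : m₁.countP p ≤ τ := by
      rw [hm₁]
      split
      · rename_i h; exact h.le
      · simp
    have hw₂ : m₂.countP p ≤ τ := by
      rw [hm₂]
      split
      · rename_i h; exact h.le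
      · simp
    refine ⟨(a, b₀ + (m₁ + m₂)) :: (P₁ ++ P₂), ?_, ?_, ?_, b₀ + (y₁ + y₂),
      h₀.fill (ProofTree.both g y₁ y₂ hg hy₁ hy₂), ?_⟩
    · simp only [List.length_cons, List.length_append]
      omega
    · intro π hπ
      rcases List.mem_cons.1 hπ with rfl | hπ
      · refine ⟨hG ha, ?_, ?_, hfar⟩
        · exact (add_le_add le_rfl (add_le_add hm₁' hm₂')).trans hx
        · show (b₀ + (m₁ + m₂)).countP p ≤ 3 * τ
          rw [Multiset.countP_add, Multiset.countP_add]
          omega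
      · rcases List.mem_append.1 hπ with hπ | hπ
        · obtain ⟨q1, q2, q3, q4⟩ := hQ₁ π hπ
          exact ⟨q1, q2, q3, fun σ hσ => q4 σ (List.mem_cons_of_mem _ hσ)⟩
        · obtain ⟨q1, q2, q3, q4⟩ := hQ₂ π hπ
          exact ⟨q1, q2, q3, fun σ hσ => q4 σ
            (List.mem_append.2 (Or.inr (List.mem_cons_of_mem _ hσ)))⟩
    · rw [List.pairwise_cons]
      refine ⟨?_, ?_⟩
      · intro π hπ
        rcases List.mem_append.1 hπ with hπ | hπ
        · exact (hQ₁ π hπ).2.2.2 a List.mem_cons_self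
        · exact (hQ₂ π hπ).2.2.2 a (List.mem_append.2 (Or.inr List.mem_cons_self))
      · rw [List.pairwise_append]
        refine ⟨hR₁, hR₂, fun π hπ π' hπ' => ?_⟩
        exact (hQ₂ π' hπ').2.2.2 π.1
          (List.mem_append.2 (Or.inl (List.mem_map_of_mem hπ)))
    · intro e he
      right
      rcases Multiset.mem_add.1 he with h | h
      · exact ⟨_, List.mem_cons_self, Multiset.mem_add.2 (Or.inl h)⟩
      · rcases Multiset.mem_add.1 h with h | h
        · rcases hz₁ e h with h | ⟨π, hπ, heπ⟩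
          · exact ⟨_, List.mem_cons_self,
              Multiset.mem_add.2 (Or.inr (Multiset.mem_add.2 (Or.inl h)))⟩
          · exact ⟨π, List.mem_cons_of_mem _ (List.mem_append.2 (Or.inl hπ)), heπ⟩
        · rcases hz₂ e h with h | ⟨π, hπ, heπ⟩
          · exact ⟨_, List.mem_cons_self,
              Multiset.mem_add.2 (Or.inr (Multiset.mem_add.2 (Or.inr h)))⟩
          · exact ⟨π, List.mem_cons_of_mem _ (List.mem_append.2 (Or.inr hπ)), heπ⟩

/-- The recombination theorem. -/
theorem exists_mix [DecidableEq A] (hτ : 2 ≤ τ) {V B : ℕ}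
    (hV : ∀ σ : A, ∀ E ⊆ F, (∀ a ∈ E, ¬ far σ a) → E.card ≤ V)
    (hder : ∀ a ∈ F, ProofTree C ok C.out (b a))
    (hB : ∀ a ∈ F, (b a).countP p / τ ≤ B)
    (hcard : s * (B + 1) * ((2 * B + 1) * V) < F.card) :
    ∃ P : List (A × Multiset L), P.length ≤ 2 * B + 1 ∧
      (∀ π ∈ P, π.1 ∈ F ∧ π.2 ≤ b π.1 ∧ π.2.countP p ≤ 3 * τ) ∧
      P.Pairwise (fun π π' => far π.1 π'.1) ∧
      ∃ b', ProofTree C ok C.out b' ∧ ∀ e ∈ b', ∃ π ∈ P, e ∈ π.2 := by
  classical
  set M : ℕ := 2 * B + 1 with hM
  -- the members with a poor pair whose lower pairs are rich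
  let E : Fin s × Fin (B + 1) → Finset A := fun uj =>
    F.filter (fun a => ¬ Rich C ok p F b far τ M uj.1 uj.2 ∧ Sub C ok p b τ a uj.1 uj.2 ∧
      ∀ u j, j < (uj.2 : ℕ) → Sub C ok p b τ a u j → Rich C ok p F b far τ M u j)
  have hE : ∀ uj, (E uj).card ≤ M * V := by
    rintro ⟨u, j⟩
    by_contra hcon
    have hcon := not_le.1 hcon
    have hpos : 0 < (E (u, j)).card := by omega
    obtain ⟨a, ha⟩ := Finset.card_pos.1 hpos
    apply (Finset.mem_filter.1 ha).2.1
    exact rich_of_large hτ hV u j (E (u, j)) (Finset.filter_subset _ _)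
      (fun a ha => (Finset.mem_filter.1 ha).2.2.1)
      (fun a ha => (Finset.mem_filter.1 ha).2.2.2) hcon
  have hU : ((Finset.univ : Finset (Fin s × Fin (B + 1))).biUnion E).card < F.card := by
    refine lt_of_le_of_lt ?_ hcard
    calc _ ≤ ∑ uj : Fin s × Fin (B + 1), (E uj).card := Finset.card_biUnion_le
      _ ≤ ∑ _uj : Fin s × Fin (B + 1), M * V := Finset.sum_le_sum (fun uj _ => hE uj)
      _ = s * (B + 1) * (M * V) := by
          rw [Finset.sum_const, Finset.card_univ, Fintype.card_prod, Fintype.card_fin,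
            Fintype.card_fin, smul_eq_mul]
  obtain ⟨a, ha, hna⟩ := Finset.exists_mem_notMem_of_card_lt_card hU
  -- all pairs of `a` are rich
  have hrich : ∀ j, ∀ u, j ≤ B → Sub C ok p b τ a u j → Rich C ok p F b far τ M u j := by
    intro j
    induction j using Nat.strong_induction_on with
    | _ j ih =>
      intro u hj hs
      by_contra hpoor
      apply hna
      rw [Finset.mem_biUnion]
      refine ⟨(u, ⟨j, by omega⟩), Finset.mem_univ _, Finset.mem_filter.2 ⟨ha, hpoor, hs, ?_⟩⟩
      intro u' j' hj' hs'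
      exact ih j' hj' u' (by have : j' < j := hj'; omega) hs'
  have hBa := hB a ha
  obtain ⟨P, hP, hQ, hR, y, hy, hz⟩ := mix_child hτ (M := M) (fun u j hj => hrich j u hj)
    (le_refl (b a)) (hder a ha) hBa (S := [a]) (by simp only [List.length_singleton]; omega)
  refine ⟨(a, if (b a).countP p < τ then b a else 0) :: P, ?_, ?_, ?_, y, hy, ?_⟩
  · simp only [List.length_cons]
    omega
  · intro π hπ
    rcases List.mem_cons.1 hπ with rfl | hπ
    · refine ⟨ha, ?_, ?_⟩
      · show (if (b a).countP p < τ then b a else 0) ≤ b a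
        split
        · exact le_refl _
        · exact Multiset.zero_le _
      · show Multiset.countP p (if (b a).countP p < τ then b a else 0) ≤ 3 * τ
        by_cases h : (b a).countP p < τ
        · rw [if_pos h]
          omega
        · rw [if_neg h]
          simp
    · exact ⟨(hQ π hπ).1, (hQ π hπ).2.1, (hQ π hπ).2.2.1⟩
  · rw [List.pairwise_cons]
    exact ⟨fun π hπ => (hQ π hπ).2.2.2 a List.mem_cons_self, hR⟩
  · intro e he
    rcases hz e he with h | ⟨π, hπ, heπ⟩
    · exact ⟨_, List.mem_cons_self, h⟩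
    · exact ⟨π, List.mem_cons_of_mem _ hπ, heπ⟩

end

end Pool.Agent.H86.Mct
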