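import Pool.Agent.H86.Mct.Cnt

/-!
# The model: scope systems, planted instances, De Morgan and tropical circuits
-/

namespace Pool.Agent.H86.Mct

open scoped NNReal

/-- A proof tree all of whose leaves are true certifies acceptance. -/
theorem ProofTree.eval_true {m k s : ℕ} {C : Circuit (Lit m k) Bool s} {y : Inp m k → Bool}
    {v : Node (Lit m k) Bool s} {b : Multiset (Lit m k)}
    (h : ProofTree C (fun c => c = true) v b) (hb : ∀ l ∈ b, litVal y l = true) :
    C.eval (litVal y) id (fun p q => p && q) (fun p q => p || q) v = true := by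
  induction h with
  | leaf x => rw [Circuit.eval_leaf]; exact hb x (by simp)
  | const c h => rw [Circuit.eval_const]; exact h
  | both g b₁ b₂ h _ _ ih₁ ih₂ =>
    rw [Circuit.eval_conj _ _ _ _ _ _ h, ih₁ (fun l hl => hb l (Multiset.mem_add.2 (Or.inl hl))),
      ih₂ (fun l hl => hb l (Multiset.mem_add.2 (Or.inr hl)))]
    rfl
  | left g b h _ ih =>
    rw [Circuit.eval_disj _ _ _ _ _ _ h, ih hb]
    rfl
  | right g b h _ ih =>
    rw [Circuit.eval_disj _ _ _ _ _ _ h, ih hb]
    simp

/-- Proof trees of a (min,+) circuit bound its value from above. -/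
theorem ProofTree.min_le {L : Type} {s : ℕ} {C : Circuit L ℝ≥0 s} {v : Node L ℝ≥0 s}
    {b : Multiset L} (h : ProofTree C (fun _ => True) v b) :
    ∃ B : ℝ≥0, ∀ w : L → ℝ≥0,
      C.eval w id (fun p q => p + q) (fun p q => min p q) v ≤ B + (b.map w).sum := by
  induction h with
  | leaf x => exact ⟨0, fun w => by rw [Circuit.eval_leaf]; simp⟩
  | const c h => exact ⟨c, fun w => by rw [Circuit.eval_const]; simp⟩
  | both g b₁ b₂ h _ _ ih₁ ih₂ =>
    obtain ⟨B₁, h₁⟩ := ih₁
    obtain ⟨B₂, h₂⟩ := ih₂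
    refine ⟨B₁ + B₂, fun w => ?_⟩
    rw [Circuit.eval_conj _ _ _ _ _ _ h, Multiset.map_add, Multiset.sum_add]
    calc _ ≤ (B₁ + (b₁.map w).sum) + (B₂ + (b₂.map w).sum) := add_le_add (h₁ w) (h₂ w)
      _ = _ := by ring
  | left g b h _ ih =>
    obtain ⟨B, hB⟩ := ih
    refine ⟨B, fun w => ?_⟩
    rw [Circuit.eval_disj _ _ _ _ _ _ h]
    exact (min_le_left _ _).trans (hB w)
  | right g b h _ ih =>
    obtain ⟨B, hB⟩ := ih
    refine ⟨B, fun w => ?_⟩
    rw [Circuit.eval_disj _ _ _ _ _ _ h]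
    exact (min_le_right _ _).trans (hB w)

/-- The value of a (min,+) circuit is attained by a proof tree, up to its constants. -/
theorem exists_tree_le {L : Type} {s : ℕ} (C : Circuit L ℝ≥0 s) (w : L → ℝ≥0)
    (v : Node L ℝ≥0 s) :
    ∃ b, ProofTree C (fun _ => True) v b ∧
      (b.map w).sum ≤ C.eval w id (fun p q => p + q) (fun p q => min p q) v := by
  induction v using C.node_induction with
  | hl x => exact ⟨{x}, ProofTree.leaf x, by rw [Circuit.eval_leaf]; simp⟩
  | hc c => exact ⟨0, ProofTree.const c trivial, by simp⟩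
  | hg g ih₁ ih₂ =>
    obtain ⟨b₁, d₁, e₁⟩ := ih₁
    obtain ⟨b₂, d₂, e₂⟩ := ih₂
    by_cases h : C.conj g = true
    · refine ⟨b₁ + b₂, ProofTree.both g b₁ b₂ h d₁ d₂, ?_⟩
      rw [Circuit.eval_conj _ _ _ _ _ _ h, Multiset.map_add, Multiset.sum_add]
      exact add_le_add e₁ e₂
    · have h' : C.conj g = false := by simpa using h
      rw [Circuit.eval_disj _ _ _ _ _ _ h']
      rcases min_choice (C.eval w id (fun p q => p + q) (fun p q => min p q) (C.left g))
        (C.eval w id (fun p q => p + q) (fun p q => min p q) (C.right g)) with hm | hm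
      · rw [hm]
        exact ⟨b₁, ProofTree.left g b₁ h' d₁, e₁⟩
      · rw [hm]
        exact ⟨b₂, ProofTree.right g b₂ h' d₂, e₂⟩

/-- Proof trees of a (max,+) circuit bound its value from below. -/
theorem ProofTree.le_max {L : Type} {s : ℕ} {C : Circuit L ℝ≥0 s} {v : Node L ℝ≥0 s}
    {b : Multiset L} (h : ProofTree C (fun _ => True) v b) (w : L → ℝ≥0) :
    (b.map w).sum ≤ C.eval w id (fun p q => p + q) (fun p q => max p q) v := by
  induction h with
  | leaf x => rw [Circuit.eval_leaf]; simp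
  | const c h => simp
  | both g b₁ b₂ h _ _ ih₁ ih₂ =>
    rw [Circuit.eval_conj _ _ _ _ _ _ h, Multiset.map_add, Multiset.sum_add]
    exact add_le_add ih₁ ih₂
  | left g b h _ ih =>
    rw [Circuit.eval_disj _ _ _ _ _ _ h]
    exact ih.trans (le_max_left _ _)
  | right g b h _ ih =>
    rw [Circuit.eval_disj _ _ _ _ _ _ h]
    exact ih.trans (le_max_right _ _)

/-- The value of a (max,+) circuit is attained by a proof tree with its constants. -/
theorem exists_tree_ge {L : Type} {s : ℕ} (C : Circuit L ℝ≥0 s) (w : L → ℝ≥0)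
    (v : Node L ℝ≥0 s) :
    ∃ (b : Multiset L) (κ : ℝ≥0), ProofTree C (fun _ => True) v b ∧
      C.eval w id (fun p q => p + q) (fun p q => max p q) v ≤ κ + (b.map w).sum ∧
      κ ≤ C.eval (fun _ => 0) id (fun p q => p + q) (fun p q => max p q) v := by
  induction v using C.node_induction with
  | hl x => exact ⟨{x}, 0, ProofTree.leaf x, by rw [Circuit.eval_leaf]; simp, by simp⟩
  | hc c => exact ⟨0, c, ProofTree.const c trivial, by rw [Circuit.eval_const]; simp,
      by rw [Circuit.eval_const]; rfl⟩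
  | hg g ih₁ ih₂ =>
    obtain ⟨b₁, κ₁, d₁, e₁, f₁⟩ := ih₁
    obtain ⟨b₂, κ₂, d₂, e₂, f₂⟩ := ih₂
    by_cases h : C.conj g = true
    · refine ⟨b₁ + b₂, κ₁ + κ₂, ProofTree.both g b₁ b₂ h d₁ d₂, ?_, ?_⟩
      · rw [Circuit.eval_conj _ _ _ _ _ _ h, Multiset.map_add, Multiset.sum_add]
        calc _ ≤ (κ₁ + (b₁.map w).sum) + (κ₂ + (b₂.map w).sum) := add_le_add e₁ e₂
          _ = _ := by ring
      · rw [Circuit.eval_conj _ _ _ _ _ _ h]
        exact add_le_add f₁ f₂
    · have h' : C.conj g = false := by simpa using h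
      rw [Circuit.eval_disj _ _ _ _ _ _ h', Circuit.eval_disj _ _ _ _ _ _ h']
      rcases max_choice (C.eval w id (fun p q => p + q) (fun p q => max p q) (C.left g))
        (C.eval w id (fun p q => p + q) (fun p q => max p q) (C.right g)) with hm | hm
      · rw [hm]
        exact ⟨b₁, κ₁, ProofTree.left g b₁ h' d₁, e₁, f₁.trans (le_max_left _ _)⟩
      · rw [hm]
        exact ⟨b₂, κ₂, ProofTree.right g b₂ h' d₂, e₂, f₂.trans (le_max_right _ _)⟩

end Pool.Agent.H86.Mct
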