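import Pool.Agent.H86.Mct.Bnd

/-!
# Choice of the parameters
-/

namespace Pool.Agent.H86.Mct

open scoped NNReal

theorem arith_aux {a b x y : ℝ} (ha : 0 ≤ a) (hb : 0 ≤ b) (hx : 0 ≤ x) (hy : 0 ≤ y) :
    1 + (a + x) + (69 * y + 1) * b ≤ (2 + a + 70 * b) * (1 + x + y) := by
  have h1 := mul_nonneg ha hx
  have h2 := mul_nonneg ha hy
  have h3 := mul_nonneg hb hx
  have h4 := mul_nonneg hb hy
  have h5 : (2 + a + 70 * b) * (1 + x + y) =
    2 + 2 * x + 2 * y + a + a * x + a * y + 70 * b + 70 * (b * x) + 70 * (b * y) := by ring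
  have h6 : 1 + (a + x) + (69 * y + 1) * b = 1 + a + x + 69 * (b * y) + b := by ring
  rw [h5, h6]
  linarith

theorem arith_aux2 {r X : ℝ} (hr : 0 ≤ r) (hX : 18 * r ≤ X) :
    162 * (r * r) ≤ Real.exp X := by
  have hX0 : 0 ≤ X := le_trans (by positivity) hX
  have h7 := Real.quadratic_le_exp_of_nonneg hX0
  have h8 : (18 * r) * (18 * r) ≤ X * X := mul_le_mul hX hX (by positivity) hX0
  have h9 : (18 * r) * (18 * r) = 2 * (162 * (r * r)) := by ring
  have h10 : X ^ 2 = X * X := sq X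
  rw [h10] at h7
  rw [h9] at h8
  linarith

theorem arith_aux3 {r β : ℝ} (hr : 1 ≤ r) (hβ0 : 0 ≤ β) (hβ : β ≤ 8 * r) :
    (β + 1) * (2 * β + 1) ≤ 162 * (r * r) := by
  have h2 : β + 1 ≤ 9 * r := by linarith
  have h3 : 2 * β + 1 ≤ 17 * r := by linarith
  have h4 : (β + 1) * (2 * β + 1) ≤ (9 * r) * (17 * r) :=
    mul_le_mul h2 h3 (by positivity) (by linarith)
  have h5 : (9 * r) * (17 * r) = 153 * (r * r) := by ring
  have h6 : 0 ≤ r * r := mul_self_nonneg r
  rw [h5] at h4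
  linarith

/-- The three lower bounds, with all parameters chosen. -/
theorem main_bound (ε : ℝ) (hε : 0 < ε) :
    ∃ κ : ℝ, 0 < κ ∧ ∀ (r : ℝ) (n m k : ℕ), 1 ≤ r → κ * r ≤ n → n ≤ m →
      κ * (1 + Real.log r + r * n / m) ≤ k →
      ∃ G : Finset (Fin m → Fin k → Fin n),
        (2 : ℝ) ^ n * ((Gᶜ).card : ℝ) ≤ Fintype.card (Fin m → Fin k → Fin n) ∧
        ∀ t ∈ G,
          (∀ (s : ℕ) (C : Circuit (Lit m k) Bool s) (A : Finset (Fin n → Bool)) (Q : ℕ),
            (∀ y, accepts C y = true → Satisfiable t y) →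
            (∀ a ∈ A, HasTree C (planted t a) (r * m) Q) →
            (A.card : ℝ) ≤
              s * 2 ^ (ε * n) * ∑ i ∈ Finset.range (Q + 1), ((2 ^ k * m).choose i : ℝ)) ∧
          (∀ (s : ℕ) (C : Circuit (Inp m k) ℝ≥0 s),
            (∀ w, (∃ a, cost t w a ≤ minPlus C w) ∧
              ∀ a, (minPlus C w : ℝ) ≤ r * cost t w a) →
            (2 : ℝ) ^ ((1 - ε) * n) ≤ s) ∧
          (∀ (s : ℕ) (C : Circuit (Inp m k) ℝ≥0 s),
            (∀ w, (∃ a, maxPlus C w ≤ cost t w a) ∧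
              ∀ a, (cost t w a : ℝ) ≤ r * maxPlus C w) →
            (2 : ℝ) ^ ((1 - ε) * n) ≤ s) := by
  classical
  -- the constants depending on `ε` only
  obtain ⟨γ₁, hγ₁, hball⟩ := ball_bound (show (0 : ℝ) < ε / 2 by positivity)
  set δ : ℝ := min (γ₁ / 2) (1 / 2) with hδ
  have hδ0 : 0 < δ := lt_min (by positivity) (by norm_num)
  have hδ1 : δ ≤ 1 / 2 := min_le_right _ _
  have hδ2 : 2 * δ ≤ γ₁ := by
    have : δ ≤ γ₁ / 2 := min_le_left _ _
    linarith
  set lam : ℝ := -Real.log (1 - δ) with hlam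
  have hlam0 : 0 < lam := by
    have := Real.log_neg (show 0 < 1 - δ by linarith) (show 1 - δ < 1 by linarith)
    linarith
  have hlog2 : 0 < Real.log 2 := Real.log_pos (by norm_num)
  have hlog4 : 0 < Real.log 4 := Real.log_pos (by norm_num)
  have hlog69 : 0 < Real.log 69 := Real.log_pos (by norm_num)
  set c₀ : ℝ := 2 + Real.log 69 + 70 * Real.log 4 with hc₀
  refine ⟨8 + 36 / (ε * Real.log 2) + c₀ / lam, by positivity, ?_⟩
  intro r n m k hr hnr hnm hk
  set κ : ℝ := 8 + 36 / (ε * Real.log 2) + c₀ / lam with hκ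
  have hκ1 : 8 ≤ κ := by
    have h1 : 0 < 36 / (ε * Real.log 2) := by positivity
    have h2 : 0 < c₀ / lam := by positivity
    linarith
  have hκ2 : 36 / (ε * Real.log 2) ≤ κ := by
    have h2 : 0 < c₀ / lam := by positivity
    linarith
  have hκ3 : c₀ / lam ≤ κ := by
    have h1 : 0 < 36 / (ε * Real.log 2) := by positivity
    linarith
  have hn8r : 8 * r ≤ n := (mul_le_mul_of_nonneg_right hκ1 (by linarith)).trans hnr
  have hn8' : (8 : ℝ) ≤ n := by linarith
  have hn8 : 8 ≤ n := by exact_mod_cast hn8'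
  have hm8 : 8 ≤ m := hn8.trans hnm
  have hn0 : (0 : ℝ) < n := by linarith
  have hnm' : (n : ℝ) ≤ m := by exact_mod_cast hnm
  have hm0 : (0 : ℝ) < m := by linarith
  -- the number of levels and the agreement bound
  set B : ℕ := ⌊8 * r⌋₊ with hB
  have hB1 : (B : ℝ) ≤ 8 * r := Nat.floor_le (by linarith)
  have hB2 : 8 * r < B + 1 := Nat.lt_floor_add_one _
  set q : ℕ := 8 * B + 5 with hq
  have hq0 : 0 < q := by omega
  have hq1 : (q : ℝ) ≤ 69 * r := by
    rw [hq]
    push_cast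
    linarith
  have hq2 : 3 * r < q := by
    rw [hq]
    push_cast
    linarith
  set z : ℕ := ⌈(n : ℝ) * q / m⌉₊ with hz
  have hz1 : n * q ≤ z * m := by
    have h1 : (n : ℝ) * q / m ≤ z := Nat.le_ceil _
    rw [div_le_iff₀ hm0] at h1
    exact_mod_cast h1
  have hz2 : (z : ℝ) ≤ 69 * (r * n / m) + 1 := by
    have h1 : (z : ℝ) < (n : ℝ) * q / m + 1 := Nat.ceil_lt_add_one (by positivity)
    have h2 : (n : ℝ) * q / m ≤ 69 * (r * n / m) := by
      rw [div_le_iff₀ hm0]
      calc (n : ℝ) * q ≤ n * (69 * r) := mul_le_mul_of_nonneg_left hq1 hn0.le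
        _ = 69 * (r * n / m) * m := by field_simp
    linarith
  set d : ℕ := ⌊δ * n⌋₊ with hd
  set τ : ℕ := m / 4 with hτdef
  have hτ : 2 ≤ τ := by omega
  have hd1 : (d : ℝ) ≤ δ * n := Nat.floor_le (by positivity)
  have hd2 : δ * n < d + 1 := Nat.lt_floor_add_one _
  set V : ℕ := ⌊(2 : ℝ) ^ (ε / 2 * n)⌋₊ with hVdef
  have hpow : (0 : ℝ) < (2 : ℝ) ^ (ε / 2 * n) := Real.rpow_pos_of_pos (by norm_num) _
  have hV1 : (V : ℝ) ≤ (2 : ℝ) ^ (ε / 2 * n) := Nat.floor_le hpow.le
  have hV : ∀ a : Fin n → Bool,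
      (Finset.univ.filter (fun c => hammingDist a c ≤ 2 * d)).card ≤ V := by
    intro a
    apply Nat.le_floor
    apply hball n (2 * d)
    push_cast
    nlinarith
  have hT : (((B + 1) * (2 * B + 1) : ℕ) : ℝ) ≤ (2 : ℝ) ^ (ε / 2 * n) := by
    have h1 : (((B + 1) * (2 * B + 1) : ℕ) : ℝ) ≤ 162 * (r * r) := by
      push_cast
      exact arith_aux3 hr (Nat.cast_nonneg B) hB1
    have h4 : 18 * r ≤ Real.log 2 * (ε / 2 * n) := by
      have h5 : 36 / (ε * Real.log 2) * r ≤ n :=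
        (mul_le_mul_of_nonneg_right hκ2 (by linarith)).trans hnr
      have h6 : 36 * r ≤ n * (ε * Real.log 2) := by
        rw [div_mul_eq_mul_div, div_le_iff₀ (by positivity)] at h5
        exact h5
      linarith
    have h5 : 162 * (r * r) ≤ Real.exp (Real.log 2 * (ε / 2 * n)) :=
      arith_aux2 (by linarith) h4
    rw [Real.rpow_def_of_pos (by norm_num : (0 : ℝ) < 2)]
    exact h1.trans h5
  have hprod : (((B + 1) * (2 * B + 1) : ℕ) : ℝ) * V ≤ (2 : ℝ) ^ (ε * n) := by
    have h1 : (2 : ℝ) ^ (ε * n) = (2 : ℝ) ^ (ε / 2 * n) * (2 : ℝ) ^ (ε / 2 * n) := by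
      rw [← Real.rpow_add (by norm_num)]
      congr 1
      ring
    rw [h1]
    exact mul_le_mul hT hV1 (Nat.cast_nonneg _) hpow.le
  have hnum : q * (3 * τ) + (2 * B + 1) * m < q * m := by
    have h1 : 4 * τ ≤ m := by omega
    have h2 : q * (4 * τ) ≤ q * m := Nat.mul_le_mul_left q h1
    have h3 : (8 * B + 4) * m < q * m := Nat.mul_lt_mul_of_pos_right (by omega) (by omega)
    have h4 : (8 * B + 4) * m = 4 * ((2 * B + 1) * m) := by ring
    have h5 : q * (4 * τ) = 4 * (q * τ) := by ring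
    have h6 : q * (3 * τ) = 3 * (q * τ) := by ring
    omega
  have hrB : r * m < τ * (B + 1) := by
    have h1 : (m : ℝ) ≤ 8 * τ := by
      have : m ≤ 8 * τ := by omega
      exact_mod_cast this
    have h2 : (0 : ℝ) < τ := by
      have : 0 < τ := by omega
      exact_mod_cast this
    calc r * m ≤ r * (8 * τ) := mul_le_mul_of_nonneg_left h1 (by linarith)
      _ = (8 * r) * τ := by ring
      _ < (B + 1) * τ := mul_lt_mul_of_pos_right hB2 h2
      _ = τ * (B + 1) := by ring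
  have hfinal : ∀ s X : ℕ, (X : ℝ) ≤ s * 2 ^ (ε * n) → X = 2 ^ n →
      (2 : ℝ) ^ ((1 - ε) * n) ≤ s := by
    intro s X hX hXn
    rw [hXn] at hX
    push_cast at hX
    have h5 : (2 : ℝ) ^ ((1 - ε) * n) * 2 ^ (ε * n) = (2 : ℝ) ^ n := by
      rw [← Real.rpow_add (by norm_num), ← Real.rpow_natCast]
      congr 1
      ring
    rw [← h5] at hX
    exact le_of_mul_le_mul_right hX (Real.rpow_pos_of_pos (by norm_num) _)
  refine ⟨Finset.univ.filter (fun t => GoodScopes d q t), ?_, ?_⟩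
  · have hρ : ((n : ℝ) - (d + 1)) ≤ (1 - δ) * n := by linarith
    have hk' : Real.exp 1 * q * (1 - δ) ^ k * 4 ^ z ≤ 1 := by
      have hq0' : (0 : ℝ) < q := by exact_mod_cast hq0
      have h1 : Real.exp 1 * q * (1 - δ) ^ k * 4 ^ z =
          Real.exp (1 + Real.log q + k * Real.log (1 - δ) + z * Real.log 4) := by
        rw [Real.exp_add, Real.exp_add, Real.exp_add, Real.exp_log hq0', Real.exp_nat_mul,
          Real.exp_nat_mul, Real.exp_log (by linarith), Real.exp_log (by norm_num)]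
      rw [h1, Real.exp_le_one_iff]
      have h2 : Real.log q ≤ Real.log 69 + Real.log r := by
        rw [← Real.log_mul (by norm_num) (by linarith)]
        exact Real.log_le_log hq0' hq1
      have hlr : 0 ≤ Real.log r := Real.log_nonneg hr
      have hrn : 0 ≤ r * n / m := by positivity
      have h3 : c₀ * (1 + Real.log r + r * n / m) ≤ k * lam := by
        have h4 : c₀ / lam * (1 + Real.log r + r * n / m) ≤ k :=
          (mul_le_mul_of_nonneg_right hκ3 (by linarith)).trans hk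
        calc c₀ * (1 + Real.log r + r * n / m) =
              (c₀ / lam * (1 + Real.log r + r * n / m)) * lam := by field_simp
          _ ≤ k * lam := mul_le_mul_of_nonneg_right h4 hlam0.le
      have h5 : (z : ℝ) * Real.log 4 ≤ (69 * (r * n / m) + 1) * Real.log 4 :=
        mul_le_mul_of_nonneg_right hz2 hlog4.le
      have h6 : (k : ℝ) * Real.log (1 - δ) = -(k * lam) := by rw [hlam]; ring
      rw [h6]
      have h7 := arith_aux hlog69.le hlog4.le hlr hrn
      rw [← hc₀] at h7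
      linarith
    have := card_bad_le (m := m) (k := k) (n := n) (by omega) d q z hq0 (1 - δ) (by linarith)
      hρ hk' hz1
    have hcompl : (Finset.univ.filter (fun t : Fin m → Fin k → Fin n => GoodScopes d q t))ᶜ =
        Finset.univ.filter (fun t : Fin m → Fin k → Fin n => ¬ GoodScopes d q t) := by
      ext t
      simp
    rw [hcompl]
    refine this.trans (le_of_eq ?_)
    simp
  · intro t ht
    have hgood : GoodScopes d q t := (Finset.mem_filter.1 ht).2
    refine ⟨?_, ?_, ?_⟩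
    · intro s C A Q hsound hA
      have h1 := demorgan_bound C t hτ B d q V Q r hV hgood hnum hrB hsound A hA
      have h2 : (A.card : ℝ) ≤ (((∑ i ∈ Finset.range (Q + 1), (2 ^ k * m).choose i) *
          (s * (B + 1) * ((2 * B + 1) * V)) : ℕ) : ℝ) := by exact_mod_cast h1
      have h3 : ((∑ i ∈ Finset.range (Q + 1), (2 ^ k * m).choose i : ℕ) : ℝ) =
          ∑ i ∈ Finset.range (Q + 1), ((2 ^ k * m).choose i : ℝ) := by push_cast; rfl
      have h4 : (0 : ℝ) ≤ ∑ i ∈ Finset.range (Q + 1), ((2 ^ k * m).choose i : ℝ) :=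
        Finset.sum_nonneg (fun i _ => Nat.cast_nonneg _)
      calc (A.card : ℝ) ≤ _ := h2
        _ = s * ((((B + 1) * (2 * B + 1) : ℕ) : ℝ) * V) *
            ∑ i ∈ Finset.range (Q + 1), ((2 ^ k * m).choose i : ℝ) := by
              rw [← h3]
              push_cast
              ring
        _ ≤ s * 2 ^ (ε * n) * ∑ i ∈ Finset.range (Q + 1), ((2 ^ k * m).choose i : ℝ) :=
            mul_le_mul_of_nonneg_right (mul_le_mul_of_nonneg_left hprod (Nat.cast_nonneg _)) h4
    · intro s C hC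
      have h1 := minPlus_bound C t hτ B d q V r hV hgood hnum hrB hC
      refine hfinal s _ ?_ rfl
      have h2 : ((2 ^ n : ℕ) : ℝ) ≤ ((s * (B + 1) * ((2 * B + 1) * V) : ℕ) : ℝ) := by
        exact_mod_cast h1
      calc ((2 ^ n : ℕ) : ℝ) ≤ ((s * (B + 1) * ((2 * B + 1) * V) : ℕ) : ℝ) := h2
        _ = s * ((((B + 1) * (2 * B + 1) : ℕ) : ℝ) * V) := by push_cast; ring
        _ ≤ s * 2 ^ (ε * n) := mul_le_mul_of_nonneg_left hprod (Nat.cast_nonneg _)
    · intro s C hC
      have h1 := maxPlus_bound C t d q V r hV hgood (by linarith) (by linarith) hq2 hC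
      refine hfinal s _ ?_ rfl
      have h2 : ((2 ^ n : ℕ) : ℝ) ≤ ((s * V : ℕ) : ℝ) := by exact_mod_cast h1
      have h3 : (V : ℝ) ≤ (2 : ℝ) ^ (ε * n) := by
        refine hV1.trans (Real.rpow_le_rpow_of_exponent_le (by norm_num) ?_)
        have : 0 ≤ ε * n := by positivity
        linarith
      calc ((2 ^ n : ℕ) : ℝ) ≤ ((s * V : ℕ) : ℝ) := h2
        _ = s * V := by push_cast; ring
        _ ≤ s * 2 ^ (ε * n) := mul_le_mul_of_nonneg_left h3 (Nat.cast_nonneg _)

end Pool.Agent.H86.Mct
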