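import Pool.Agent.H86.Mct.Mix

/-!
# The combinatorial bound
-/

namespace Pool.Agent.H86.Mct

open Classical in
/-- The scopes on which a piece contains the pattern of `c`. -/
noncomputable def covered {L : Type} {n m k : ℕ} (t : Fin m → Fin k → Fin n)
    (pos : L → Option (Inp m k)) (c : Fin n → Bool) (X : Multiset L) : Finset (Fin m) :=
  Finset.univ.filter (fun j => ∃ e ∈ X, pos e = some (j, c ∘ t j))

theorem mem_covered {L : Type} {n m k : ℕ} {t : Fin m → Fin k → Fin n}
    {pos : L → Option (Inp m k)} {c : Fin n → Bool} {X : Multiset L} {j : Fin m} :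
    j ∈ covered t pos c X ↔ ∃ e ∈ X, pos e = some (j, c ∘ t j) := by
  simp [covered]

theorem card_covered_le {L : Type} {n m k : ℕ} (t : Fin m → Fin k → Fin n)
    (pos : L → Option (Inp m k)) (c : Fin n → Bool) (X : Multiset L) :
    (covered t pos c X).card ≤ X.countP (fun e => (pos e).isSome = true) := by
  classical
  rcases (covered t pos c X).eq_empty_or_nonempty with hemp | ⟨j₀, hj₀⟩
  · rw [hemp]
    simp
  obtain ⟨e₀, _, _⟩ := mem_covered.1 hj₀
  rw [Multiset.countP_eq_card_filter]
  have hch : ∀ j : Fin m, ∃ e : L, j ∈ covered t pos c X → e ∈ X ∧ pos e = some (j, c ∘ t j) := by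
    intro j
    by_cases hj : j ∈ covered t pos c X
    · obtain ⟨e, h1, h2⟩ := mem_covered.1 hj
      exact ⟨e, fun _ => ⟨h1, h2⟩⟩
    · exact ⟨e₀, fun h => absurd h hj⟩
  choose f hf using hch
  have hinj : Set.InjOn f (covered t pos c X : Set (Fin m)) := by
    intro j hj j' hj' hjj
    have h1 := (hf j hj).2
    have h2 := (hf j' hj').2
    rw [hjj, h2] at h1
    have := Option.some.inj h1
    exact (congrArg Prod.fst this).symm
  have hle : (Finset.image f (covered t pos c X)).val ≤
      X.filter (fun e => (pos e).isSome = true) := by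
    rw [Multiset.le_iff_subset (Finset.image f (covered t pos c X)).nodup]
    intro e hee
    rw [Finset.mem_val, Finset.mem_image] at hee
    obtain ⟨j, hj, rfl⟩ := hee
    rw [Multiset.mem_filter]
    exact ⟨(hf j hj).1, by rw [(hf j hj).2]; rfl⟩
  calc (covered t pos c X).card = (Finset.image f (covered t pos c X)).card :=
        (Finset.card_image_of_injOn hinj).symm
    _ ≤ _ := Multiset.card_le_card hle

/-- A system of scopes is good if far assignments agree on few scopes. -/
def GoodScopes {m k n : ℕ} (d q : ℕ) (t : Fin m → Fin k → Fin n) : Prop :=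
  ∀ a c : Fin n → Bool, d < hammingDist a c →
    q * (Finset.univ.filter (fun j => a ∘ t j = c ∘ t j)).card ≤ m

/-- Pieces of pairwise far assignments cover few scopes. -/
theorem sum_covered_le {L : Type} {n m k d q ℓ : ℕ} (t : Fin m → Fin k → Fin n)
    (pos : L → Option (Inp m k)) (c : Fin n → Bool) (ht : GoodScopes d q t)
    (P : List ((Fin n → Bool) × Multiset L))
    (hP : ∀ π ∈ P, (∀ e ∈ π.2, ∀ i, pos e = some i → i.2 = π.1 ∘ t i.1) ∧
      π.2.countP (fun e => (pos e).isSome = true) ≤ ℓ)
    (hfar : P.Pairwise (fun π π' => 2 * d < hammingDist π.1 π'.1)) :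
    q * (P.map (fun π => (covered t pos c π.2).card)).sum ≤ q * ℓ + P.length * m := by
  -- a piece of an assignment which is far from `c`
  have hpiece : ∀ π : (Fin n → Bool) × Multiset L,
      (∀ e ∈ π.2, ∀ i, pos e = some i → i.2 = π.1 ∘ t i.1) → d < hammingDist c π.1 →
      q * (covered t pos c π.2).card ≤ m := by
    intro π hπ hd
    refine le_trans (Nat.mul_le_mul_left q (Finset.card_le_card ?_)) (ht c π.1 hd)
    intro j hj
    obtain ⟨e, h1, h2⟩ := mem_covered.1 hj
    exact Finset.mem_filter.2 ⟨Finset.mem_univ _, hπ e h1 _ h2⟩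
  -- pieces which are all far from `c`
  have hall : ∀ P : List ((Fin n → Bool) × Multiset L),
      (∀ π ∈ P, (∀ e ∈ π.2, ∀ i, pos e = some i → i.2 = π.1 ∘ t i.1) ∧
        d < hammingDist c π.1) →
      q * (P.map (fun π => (covered t pos c π.2).card)).sum ≤ P.length * m := by
    intro P
    induction P with
    | nil => intro _; simp
    | cons π P ih =>
      intro h
      have h1 := hpiece π (h π List.mem_cons_self).1 (h π List.mem_cons_self).2
      have h2 := ih (fun π' hπ' => h π' (List.mem_cons_of_mem _ hπ'))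
      simp only [List.map_cons, List.sum_cons, List.length_cons, Nat.mul_add, Nat.add_mul,
        Nat.one_mul]
      omega
  induction P with
  | nil => simp
  | cons π P ih =>
    rw [List.pairwise_cons] at hfar
    have hπ := hP π List.mem_cons_self
    by_cases hd : d < hammingDist c π.1
    · have h1 := hpiece π hπ.1 hd
      have h2 := ih (fun π' hπ' => hP π' (List.mem_cons_of_mem _ hπ')) hfar.2
      simp only [List.map_cons, List.sum_cons, List.length_cons, Nat.mul_add, Nat.add_mul,
        Nat.one_mul]
      omega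
    · have h1 : q * (covered t pos c π.2).card ≤ q * ℓ :=
        Nat.mul_le_mul_left q ((card_covered_le t pos c π.2).trans hπ.2)
      have h2 := hall P (fun π' hπ' => ⟨(hP π' (List.mem_cons_of_mem _ hπ')).1, by
        have h3 := hfar.1 π' hπ'
        have h4 := hammingDist_triangle π.1 c π'.1
        rw [hammingDist_comm π.1 c] at h4
        omega⟩)
      simp only [List.map_cons, List.sum_cons, List.length_cons, Nat.mul_add, Nat.add_mul,
        Nat.one_mul]
      omega

/-- The combinatorial bound.  `pos e` is the input of which the leaf `e` is the positive literal,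
if it is one. -/
theorem comb_bound {L K : Type} {s n m k : ℕ} (C : Circuit L K s) (ok : K → Prop)
    (t : Fin m → Fin k → Fin n) (pos : L → Option (Inp m k))
    {τ : ℕ} (hτ : 2 ≤ τ) (B d q V : ℕ)
    (hV : ∀ a : Fin n → Bool, (Finset.univ.filter (fun c => hammingDist a c ≤ 2 * d)).card ≤ V)
    (ht : GoodScopes d q t)
    (hnum : q * (3 * τ) + (2 * B + 1) * m < q * m)
    (F : Finset (Fin n → Bool)) (b : (Fin n → Bool) → Multiset L)
    (hD : ∀ a ∈ F, ProofTree C ok C.out (b a))
    (hpl : ∀ a ∈ F, ∀ e ∈ b a, ∀ i, pos e = some i → i.2 = a ∘ t i.1)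
    (hw : ∀ a ∈ F, (b a).countP (fun e => (pos e).isSome = true) / τ ≤ B)
    (hsound : ∀ b', ProofTree C ok C.out b' →
      (∀ e ∈ b', ∃ a ∈ F, e ∈ b a) →
      ∃ c : Fin n → Bool, ∀ j, ∃ e ∈ b', pos e = some (j, c ∘ t j)) :
    F.card ≤ s * (B + 1) * ((2 * B + 1) * V) := by
  classical
  by_contra hcon
  push Not at hcon
  obtain ⟨P, hPlen, hP, hfar, b', hb', he⟩ := exists_mix
    (p := fun e => (pos e).isSome = true) (far := fun a c => 2 * d < hammingDist a c) hτ
    (fun σ E _ hE => le_trans (Finset.card_le_card (fun a ha =>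
      Finset.mem_filter.2 ⟨Finset.mem_univ _, not_lt.1 (hE a ha)⟩)) (hV σ)) hD hw hcon
  obtain ⟨c, hc⟩ := hsound b' hb' (fun e hee => by
    obtain ⟨π, hπ, hei⟩ := he e hee
    exact ⟨π.1, (hP π hπ).1, Multiset.mem_of_le (hP π hπ).2.1 hei⟩)
  have hsum := sum_covered_le (ℓ := 3 * τ) t pos c ht P (fun π hπ => ⟨fun e hee =>
    hpl π.1 (hP π hπ).1 e (Multiset.mem_of_le (hP π hπ).2.1 hee), (hP π hπ).2.2⟩) hfar
  -- every scope is covered by a piece
  have hcov : ∀ P : List ((Fin n → Bool) × Multiset L), ∀ J : Finset (Fin m),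
      (∀ j ∈ J, ∃ π ∈ P, j ∈ covered t pos c π.2) →
      J.card ≤ (P.map (fun π => (covered t pos c π.2).card)).sum := by
    intro P
    induction P with
    | nil =>
      intro J hJ
      have : J = ∅ := by
        rw [Finset.eq_empty_iff_forall_notMem]
        intro j hj
        obtain ⟨π, hπ, _⟩ := hJ j hj
        simp at hπ
      rw [this]
      simp
    | cons π P ih =>
      intro J hJ
      have h1 : J.card ≤ (covered t pos c π.2).card + (J \ covered t pos c π.2).card := by
        have h2 : J ⊆ covered t pos c π.2 ∪ (J \ covered t pos c π.2) := by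
          intro j hj
          by_cases h : j ∈ covered t pos c π.2
          · exact Finset.mem_union_left _ h
          · exact Finset.mem_union_right _ (Finset.mem_sdiff.2 ⟨hj, h⟩)
        exact (Finset.card_le_card h2).trans (Finset.card_union_le _ _)
      have h2 := ih (J \ covered t pos c π.2) (fun j hj => by
        obtain ⟨hj1, hj2⟩ := Finset.mem_sdiff.1 hj
        obtain ⟨π', hπ', hj'⟩ := hJ j hj1
        rcases List.mem_cons.1 hπ' with rfl | hπ'
        · exact absurd hj' hj2
        · exact ⟨π', hπ', hj'⟩)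
      simp only [List.map_cons, List.sum_cons]
      omega
  have hm : m ≤ (P.map (fun π => (covered t pos c π.2).card)).sum := by
    have h1 := hcov P Finset.univ (fun j _ => by
      obtain ⟨e, hee, hpe⟩ := hc j
      obtain ⟨π, hπ, hei⟩ := he e hee
      exact ⟨π, hπ, mem_covered.2 ⟨e, hei, hpe⟩⟩)
    simpa using h1
  have h1 : q * m ≤ q * (P.map (fun π => (covered t pos c π.2).card)).sum :=
    Nat.mul_le_mul_left q hm
  have h2 : P.length * m ≤ (2 * B + 1) * m := Nat.mul_le_mul_right m hPlen
  omega

end Pool.Agent.H86.Mct
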